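import Mathlib

/-!
# The algebra attached to a system of universal decompositions

For data consisting of objects `x : X` (some of them dead) and decompositions `s : S` of an
object `z s` into two objects `x s false`, `x s true`, we form the universal `ℚ`-algebra
generated by idempotents `e x` (zero if `x` is dead; they are *not* orthogonal) and by
mutually inverse isomorphisms between `e (z s)` and `e (x s false) ⊕ e (x s true)`.
-/

universe u

namespace Pool.Agent.Lib_helper33.Berg

/-- A system of decompositions. -/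
structure Data (X S : Type u) where
  /-- the decomposed object -/
  z : S → X
  /-- its two summands -/
  x : S → Bool → X
  /-- the nonzero objects -/
  alive : X → Prop

/-- Conditions on a system of decompositions. -/
structure Data.Good {X S : Type u} (D : Data X S) : Prop where
  z_ne : ∀ s b, D.z s ≠ D.x s b
  x_ne : ∀ s, D.x s false ≠ D.x s true
  alive_z : ∀ s, D.alive (D.z s) ↔ D.alive (D.x s false) ∨ D.alive (D.x s true)

/-- Generators. -/
inductive Gen (X S : Type u) : Type u
  | e : X → Gen X S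
  | dn : S → Bool → Gen X S
  | up : S → Bool → Gen X S

variable {X S : Type u}

open FreeAlgebra in
/-- Relations. -/
inductive Rel (D : Data X S) : FreeAlgebra ℚ (Gen X S) → FreeAlgebra ℚ (Gen X S) → Prop
  | dead (x : X) (h : ¬ D.alive x) : Rel D (ι ℚ (Gen.e x)) 0
  | idem (x : X) : Rel D (ι ℚ (Gen.e x) * ι ℚ (Gen.e x)) (ι ℚ (Gen.e x))
  | e_dn (s : S) (b : Bool) :
      Rel D (ι ℚ (Gen.e (D.x s b)) * ι ℚ (Gen.dn s b)) (ι ℚ (Gen.dn s b))
  | dn_e (s : S) (b : Bool) :
      Rel D (ι ℚ (Gen.dn s b) * ι ℚ (Gen.e (D.z s))) (ι ℚ (Gen.dn s b))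
  | e_up (s : S) (b : Bool) :
      Rel D (ι ℚ (Gen.e (D.z s)) * ι ℚ (Gen.up s b)) (ι ℚ (Gen.up s b))
  | up_e (s : S) (b : Bool) :
      Rel D (ι ℚ (Gen.up s b) * ι ℚ (Gen.e (D.x s b))) (ι ℚ (Gen.up s b))
  | dn_up (s : S) (b : Bool) :
      Rel D (ι ℚ (Gen.dn s b) * ι ℚ (Gen.up s b)) (ι ℚ (Gen.e (D.x s b)))
  | dn_up' (s : S) (b : Bool) :
      Rel D (ι ℚ (Gen.dn s b) * ι ℚ (Gen.up s (!b))) 0
  | sum (s : S) :
      Rel D (ι ℚ (Gen.up s false) * ι ℚ (Gen.dn s false) +
        ι ℚ (Gen.up s true) * ι ℚ (Gen.dn s true)) (ι ℚ (Gen.e (D.z s)))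

/-- The algebra. -/
def Alg (D : Data X S) : Type u := RingQuot (Rel D)

noncomputable instance (D : Data X S) : Ring (Alg D) := inferInstanceAs (Ring (RingQuot (Rel D)))
noncomputable instance (D : Data X S) : Algebra ℚ (Alg D) :=
  inferInstanceAs (Algebra ℚ (RingQuot (Rel D)))

variable (D : Data X S)

/-- The quotient map. -/
noncomputable def mk : FreeAlgebra ℚ (Gen X S) →ₐ[ℚ] Alg D := RingQuot.mkAlgHom ℚ (Rel D)

lemma mk_surjective : Function.Surjective (mk D) := RingQuot.mkAlgHom_surjective ℚ (Rel D)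

variable {D} in
lemma mk_rel {a b : FreeAlgebra ℚ (Gen X S)} (h : Rel D a b) : mk D a = mk D b :=
  RingQuot.mkAlgHom_rel ℚ h

/-- Generator of the algebra. -/
noncomputable def g (a : Gen X S) : Alg D := mk D (FreeAlgebra.ι ℚ a)

/-- The idempotents. -/
noncomputable def e (x : X) : Alg D := g D (Gen.e x)
/-- The structure maps downwards. -/
noncomputable def dn (s : S) (b : Bool) : Alg D := g D (Gen.dn s b)
/-- The structure maps upwards. -/
noncomputable def up (s : S) (b : Bool) : Alg D := g D (Gen.up s b)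

variable {D}

lemma e_dead {x : X} (h : ¬ D.alive x) : e D x = 0 := by
  have := mk_rel (Rel.dead x h)
  rwa [map_zero] at this

lemma e_idem (x : X) : e D x * e D x = e D x := by
  have := mk_rel (D := D) (Rel.idem x)
  rwa [map_mul] at this

lemma e_mul_dn (s : S) (b : Bool) : e D (D.x s b) * dn D s b = dn D s b := by
  have := mk_rel (D := D) (Rel.e_dn s b)
  rwa [map_mul] at this

lemma dn_mul_e (s : S) (b : Bool) : dn D s b * e D (D.z s) = dn D s b := by
  have := mk_rel (D := D) (Rel.dn_e s b)
  rwa [map_mul] at this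

lemma e_mul_up (s : S) (b : Bool) : e D (D.z s) * up D s b = up D s b := by
  have := mk_rel (D := D) (Rel.e_up s b)
  rwa [map_mul] at this

lemma up_mul_e (s : S) (b : Bool) : up D s b * e D (D.x s b) = up D s b := by
  have := mk_rel (D := D) (Rel.up_e s b)
  rwa [map_mul] at this

lemma dn_mul_up (s : S) (b : Bool) : dn D s b * up D s b = e D (D.x s b) := by
  have := mk_rel (D := D) (Rel.dn_up s b)
  rwa [map_mul] at this

lemma dn_mul_up' (s : S) (b : Bool) : dn D s b * up D s (!b) = 0 := by
  have := mk_rel (D := D) (Rel.dn_up' s b)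
  rwa [map_mul, map_zero] at this

lemma up_mul_dn_add (s : S) :
    up D s false * dn D s false + up D s true * dn D s true = e D (D.z s) := by
  have := mk_rel (D := D) (Rel.sum s)
  rwa [map_add, map_mul, map_mul] at this

/-- Induction: a subset of the algebra closed under the algebra operations and containing the
generators is everything. -/
lemma Alg.induction {C : Alg D → Prop} (h1 : ∀ c : ℚ, C (algebraMap ℚ (Alg D) c))
    (hg : ∀ a : Gen X S, C (g D a)) (hmul : ∀ a b, C a → C b → C (a * b))
    (hadd : ∀ a b, C a → C b → C (a + b)) (a : Alg D) : C a := by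
  obtain ⟨a, rfl⟩ := mk_surjective D a
  induction a using FreeAlgebra.induction with
  | grade0 r => rw [AlgHom.commutes]; exact h1 r
  | grade1 x => exact hg x
  | mul a b ha hb => rw [map_mul]; exact hmul _ _ ha hb
  | add a b ha hb => rw [map_add]; exact hadd _ _ ha hb

/-- A map on generators respecting the relations. -/
structure Respects (D : Data X S) {A : Type*} [Ring A] [Algebra ℚ A] (f : Gen X S → A) : Prop where
  dead : ∀ x, ¬ D.alive x → f (Gen.e x) = 0
  idem : ∀ x, f (Gen.e x) * f (Gen.e x) = f (Gen.e x)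
  e_dn : ∀ s b, f (Gen.e (D.x s b)) * f (Gen.dn s b) = f (Gen.dn s b)
  dn_e : ∀ s b, f (Gen.dn s b) * f (Gen.e (D.z s)) = f (Gen.dn s b)
  e_up : ∀ s b, f (Gen.e (D.z s)) * f (Gen.up s b) = f (Gen.up s b)
  up_e : ∀ s b, f (Gen.up s b) * f (Gen.e (D.x s b)) = f (Gen.up s b)
  dn_up : ∀ s b, f (Gen.dn s b) * f (Gen.up s b) = f (Gen.e (D.x s b))
  dn_up' : ∀ s b, f (Gen.dn s b) * f (Gen.up s (!b)) = 0
  sum : ∀ s, f (Gen.up s false) * f (Gen.dn s false) + f (Gen.up s true) * f (Gen.dn s true) =
    f (Gen.e (D.z s))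

/-- Universal property. -/
noncomputable def lift {A : Type*} [Ring A] [Algebra ℚ A] (f : Gen X S → A)
    (h : Respects D f) : Alg D →ₐ[ℚ] A :=
  RingQuot.liftAlgHom ℚ ⟨FreeAlgebra.lift ℚ f, by
    intro a b hab
    induction hab with
    | dead x hx => simpa using h.dead x hx
    | idem x => simpa using h.idem x
    | e_dn s b => simpa using h.e_dn s b
    | dn_e s b => simpa using h.dn_e s b
    | e_up s b => simpa using h.e_up s b
    | up_e s b => simpa using h.up_e s b
    | dn_up s b => simpa using h.dn_up s b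
    | dn_up' s b => simpa using h.dn_up' s b
    | sum s => simpa using h.sum s⟩

@[simp]
lemma lift_g {A : Type*} [Ring A] [Algebra ℚ A] (f : Gen X S → A)
    (h : Respects D f) (a : Gen X S) : lift f h (g D a) = f a := by
  unfold lift g mk
  erw [RingQuot.liftAlgHom_mkAlgHom_apply]
  simp

lemma hom_ext {A : Type*} [Ring A] [Algebra ℚ A] {f f' : Alg D →ₐ[ℚ] A}
    (h : ∀ a, f (g D a) = f' (g D a)) : f = f' := by
  ext a
  induction a using Alg.induction with
  | h1 c => simp
  | hg a => exact h a
  | hmul a b ha hb => rw [map_mul, map_mul, ha, hb]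
  | hadd a b ha hb => rw [map_add, map_add, ha, hb]

end Pool.Agent.Lib_helper33.Berg
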