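import Pool.Agent.Lib_helper33.BergFilt

/-!
# The reduction argument

A family of homogeneous elements of a word module which has minimal weight among the families
obtained from it by elementary moves is free.
-/

universe u

set_option linter.unusedSectionVars false

namespace Pool.Agent.Lib_helper33.Berg

open Finsupp

variable {X S : Type u} {I J : Type} {D : Data X S} {o : I → Option X}

/-- The element of a word module given by a combination of reduced words. -/
def ofPM (hD : D.Good) {o : I → Option X} (p : W X S I →₀ ℚ) (hp : p ∈ PM D o) : P hD o := ⟨p, hp⟩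

@[simp] lemma val_ofPM (hD : D.Good) (p : W X S I →₀ ℚ) (hp : p ∈ PM D o) :
    val (ofPM hD p hp) = p := rfl

variable {hD : D.Good}

lemma val_dn_of_Hom {s : S} {b : Bool} {p : P hD o} (hp : val p ∈ Hom D o (D.z s)) :
    val (dn D s b • p) = ta D o s b (val p) := by
  rw [val_dn_smul, te_eq_self hD hp]

lemma val_up_of_Hom {s : S} {b : Bool} {p : P hD o} (hp : val p ∈ Hom D o (D.x s b)) :
    val (up D s b • p) = tb D o s b (val p) := by
  rw [val_up_smul, te_eq_self hD hp]

/-! ### combinations avoiding a generator -/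

/-- base generator of a word -/
def bs : W X S I → I
  | .gen i => i
  | .E _ w => bs w
  | .A _ _ w => bs w
  | .B _ _ w => bs w
  | .C _ w => bs w

/-- Combinations of words not based at a generator. -/
def Avoid (X S : Type u) (j : I) : Submodule ℚ (W X S I →₀ ℚ) :=
  Finsupp.supported ℚ ℚ {w | bs w ≠ j}

lemma mem_Avoid {j : I} {p : W X S I →₀ ℚ} : p ∈ Avoid X S j ↔ ∀ w ∈ p.support, bs w ≠ j := by
  rw [Avoid, Finsupp.mem_supported]; rfl

lemma single_mem_Avoid {j : I} {w : W X S I} (h : bs w ≠ j) (c : ℚ) :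
    single w c ∈ Avoid X S j := Finsupp.single_mem_supported ℚ c h

lemma dg_gen_le_dg (lab : I → Label X S) (w : W X S I) : dg lab (.gen (bs w)) ≤ dg lab w := by
  induction w with
  | gen i => exact le_rfl
  | E x w ih => simp only [bs]; rw [dg.eq_def lab (.E x w)]; simp only; split_ifs <;> omega
  | A s b w ih => simp only [bs]; rw [dg.eq_def lab (.A s b w)]; simp only; split_ifs <;> omega
  | B s b w ih => simp only [bs]; rw [dg.eq_def lab (.B s b w)]; simp only; split_ifs <;> omega
  | C s w ih => simp only [bs]; rw [dg.eq_def lab (.C s w)]; simp only; split_ifs <;> omega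

lemma BB_le_Avoid {lab : I → Label X S} {n : ℕ} {j : I} (h : n < dg lab (.gen j)) :
    BB lab n ≤ Avoid X S j := by
  intro p hp
  rw [mem_BB] at hp
  rw [mem_Avoid]
  rintro w hw rfl
  have := hp w hw
  have := dg_gen_le_dg lab w
  omega

lemma te_Avoid {x : X} {j : I} {p : W X S I →₀ ℚ} (hp : p ∈ Avoid X S j) :
    te D o x p ∈ Avoid X S j := by
  refine map_supported ?_ hp
  intro w hw
  by_cases hx : D.alive x
  · by_cases h : ob D o w = some x
    · rw [te_of_ob hx h]; exact single_mem_Avoid hw 1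
    · rw [te_of_ne hx h]; refine single_mem_Avoid ?_ 1; exact hw
  · rw [te_of_dead hx]; exact zero_mem _

lemma ta_Avoid {s : S} {b : Bool} {j : I} {p : W X S I →₀ ℚ} (hp : p ∈ Avoid X S j) :
    ta D o s b p ∈ Avoid X S j := by
  refine map_supported ?_ hp
  intro w hw
  by_cases h : ob D o w = some (D.z s) ∧ D.alive (D.x s b)
  swap
  · rw [ta_single, taW, if_neg h]; exact zero_mem _
  rw [ta_single, taW, if_pos h]
  cases w with
  | gen i => simp only [taR]; refine single_mem_Avoid ?_ 1; exact hw
  | E x w => simp only [taR]; refine single_mem_Avoid ?_ 1; exact hw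
  | A s' b' w => simp only [taR]; refine single_mem_Avoid ?_ 1; exact hw
  | B s' b' w =>
    simp only [taR]
    split_ifs
    · refine single_mem_Avoid ?_ 1; exact hw
    · exact zero_mem _
    · refine single_mem_Avoid ?_ 1; exact hw
  | C s' w =>
    simp only [taR]
    split_ifs
    · refine single_mem_Avoid ?_ 1; exact hw
    · exact zero_mem _
    · refine single_mem_Avoid ?_ 1; exact hw

/-! ### labelled families -/

/-- An element `p` at `t` is allowed to have the given label. -/
def OkLab (D : Data X S) (t : X) (p : W X S I →₀ ℚ) : Label X S → Prop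
  | .ev n => p ∈ BB (lab1 : I → Label X S) n
  | .od n l => p ∈ GG (lab1 : I → Label X S) (n + 1) l ∧ Adm D t l

/-- Weights of labels. -/
def om : Label X S → ℕ
  | .ev n => 3 ^ (2 * n) - 1
  | .od n _ => 3 ^ (2 * n + 1) - 1

lemma om_ev_lt_od (n : ℕ) (l : X ⊕ S) : om (.ev n : Label X S) < om (.od n l) := by
  simp only [om]
  have h1 : 3 ^ (2 * n + 1) = 3 * 3 ^ (2 * n) := by ring
  have h2 : 1 ≤ 3 ^ (2 * n) := Nat.one_le_pow _ _ (by norm_num)
  omega

lemma om_od_lt_ev (n : ℕ) (l : X ⊕ S) : 2 * om (.od n l) < om (.ev (n + 1) : Label X S) := by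
  simp only [om]
  have h1 : 3 ^ (2 * (n + 1)) = 3 * 3 ^ (2 * n + 1) := by ring
  have h2 : 1 ≤ 3 ^ (2 * n + 1) := Nat.one_le_pow _ _ (by norm_num)
  omega

/-- A labelled family of homogeneous elements of a word module. -/
structure LF (hD : D.Good) (o : I → Option X) (J : Type) where
  /-- objects -/
  y : J → X
  /-- elements -/
  u : J → P hD o
  /-- labels -/
  lab : J → Label X S
  alive : ∀ j, D.alive (y j)
  hom : ∀ j, val (u j) ∈ Hom D o (y j)
  ok : ∀ j, OkLab D (y j) (val (u j)) (lab j)

/-- Predicates on families stable under elementary moves. -/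
structure Closed (hD : D.Good) (o : I → Option X)
    (C : (J : Type) → (J → X) → (J → P hD o) → Prop) : Prop where
  reindex : ∀ {J J' : Type} (e : J ≃ J') (y : J' → X) (u : J' → P hD o), C J' y u →
    C J (y ∘ e) (u ∘ e)
  trans : ∀ {J : Type} (y : J → X) (u : J → P hD o) (T : Set J) (c : J → ℚ) (v : J → P hD o)
    (u' : J → P hD o), (∀ j, val (u j) ∈ Hom D o (y j)) →
    (∀ j ∈ T, c j ≠ 0) → (∀ j ∈ T, v j ∈ Submodule.span (Alg D) (u '' Tᶜ)) →
    (∀ j ∈ T, u' j = c j • u j + v j) → (∀ j ∉ T, u' j = u j) → C J y u → C J y u'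
  split : ∀ {K : Type} (y : K → X) (u : K → P hD o) (s : S) (v : P hD o),
    val v ∈ Hom D o (D.z s) →
    (C (K ⊕ Unit) (Sum.elim y (fun _ => D.z s)) (Sum.elim u (fun _ => v)) ↔
      C (K ⊕ {b : Bool // D.alive (D.x s b)}) (Sum.elim y (fun b => D.x s b))
        (Sum.elim u (fun b => dn D s b • v)))

/-- the objects of a family as objects of generators -/
def oo (y : J → X) : J → Option X := fun j => some (y j)

lemma ok_oo {y : J → X} (h : ∀ j, D.alive (y j)) : Ok D (oo y) := by
  intro j x hx
  simp only [oo, Option.some.injEq] at hx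
  subst hx
  exact h j

lemma LF.labOk (F : LF hD o J) : LabOk D (oo F.y) F.lab := by
  intro j n l hl
  have := F.ok j
  rw [hl] at this
  exact ⟨F.y j, rfl, this.2⟩

lemma hv_of_hom {y : J → X} {u : J → P hD o} (h : ∀ j, val (u j) ∈ Hom D o (y j)) :
    ∀ j x, oo y j = some x → e D x • u j = u j := by
  intro j x hx
  simp only [oo, Option.some.injEq] at hx
  subst hx
  apply val_injective
  rw [val_e_smul, te_eq_self hD (h j)]

/-- The map from the free module attached to a family. -/
noncomputable def LF.f (F : LF hD o J) : P hD (oo F.y) →ₗ[Alg D] P hD o :=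
  ev F.u (hv_of_hom F.hom)

lemma ob_oo {y : J → X} (w : W X S J) : ∃ t, ob D (oo y) w = some t := by
  cases w <;> simp [ob, oo]

lemma evW_Hom {y : J → X} {u : J → P hD o} (h : ∀ j, val (u j) ∈ Hom D o (y j))
    {w : W X S J} {t : X} (ht : ob D (oo y) w = some t) : val (evW D u w) ∈ Hom D o t := by
  have h1 := evW_ob (o := oo y) u (hv_of_hom h) ht
  rw [← h1, val_e_smul]
  exact te_mem_Hom (val_mem _)

lemma f_Hom (F : LF hD o J) {t : X} {q : P hD (oo F.y)} (hq : val q ∈ Hom D (oo F.y) t) :
    val (F.f q) ∈ Hom D o t := by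
  have h1 : e D t • q = q := by
    apply val_injective
    rw [val_e_smul, te_eq_self hD hq]
  rw [← h1, map_smul, val_e_smul]
  exact te_mem_Hom (val_mem _)

lemma evW_filt (F : LF hD o J) {w : W X S J} (hw : Valid D (oo F.y) w) :
    val (evW D F.u w) ∈ BB (lab1 : I → Label X S) (dg F.lab w) ∧
    ∀ l, lt F.lab w = some l → val (evW D F.u w) ∈ GG (lab1 : I → Label X S) (dg F.lab w) l := by
  induction w with
  | gen j =>
    have h1 := F.ok j
    cases hl : F.lab j with
    | ev n =>
      rw [hl] at h1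
      simp only [evW, dg, lt, hl]
      exact ⟨h1, fun l h => by simp at h⟩
    | od n l =>
      rw [hl] at h1
      simp only [evW, dg, lt, hl]
      refine ⟨GG_le_BB h1.1, ?_⟩
      intro l' h
      simp only [Option.some.injEq] at h
      subst h
      exact h1.1
  | E x w ih =>
    have h1 := (ih hw.2.2).1
    have h2 : lt F.lab w ≠ some (Sum.inl x) := lt_ne_of_off F.labOk hw.2.1
    have h3 : val (evW D F.u (.E x w)) ∈ GG (lab1 : I → Label X S) (dg F.lab w + 1) (Sum.inl x) := by
      simp only [evW]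
      rw [val_e_smul]
      exact te_BB x h1
    rw [dg, if_neg h2]
    refine ⟨GG_le_BB h3, fun l hl => ?_⟩
    simp only [lt, Option.some.injEq] at hl
    subst hl
    exact h3
  | A s b w ih =>
    have h1 := (ih hw.2.2.2).1
    have h2 : lt F.lab w ≠ some (Sum.inr s) := lt_ne_of_z hD F.labOk hw.2.2.1 hw.2.1
    have h3 : val (evW D F.u (.A s b w)) ∈
        GG (lab1 : I → Label X S) (dg F.lab w + 1) (Sum.inr s) := by
      simp only [evW]
      rw [val_dn_of_Hom (evW_Hom F.hom hw.2.1)]
      exact ta_BB s b h1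
    rw [dg, if_neg h2]
    refine ⟨GG_le_BB h3, fun l hl => ?_⟩
    simp only [lt, Option.some.injEq] at hl
    subst hl
    exact h3
  | B s b w ih =>
    have h1 := ih hw.2.2.2
    have h3 : val (evW D F.u (.B s b w)) ∈
        GG (lab1 : I → Label X S) (dg F.lab (.B s b w)) (Sum.inr s) := by
      simp only [evW]
      rw [val_up_of_Hom (evW_Hom F.hom hw.2.1), dg]
      split_ifs with h2
      · exact tb_GG s b (h1.2 _ h2)
      · exact tb_BB s b h1.1
    refine ⟨GG_le_BB h3, fun l hl => ?_⟩
    simp only [lt, Option.some.injEq] at hl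
    subst hl
    exact h3
  | C s w ih =>
    have h1 := (ih hw.2.2.2.2).1
    have h2 : lt F.lab w ≠ some (Sum.inr s) := lt_ne_of_z hD F.labOk hw.2.2.2.1 hw.2.2.1
    have h3 : val (evW D F.u (.C s w)) ∈
        GG (lab1 : I → Label X S) (dg F.lab w + 1) (Sum.inr s) := by
      simp only [evW]
      have h4 : val (dn D s false • evW D F.u w) = ta D o s false (val (evW D F.u w)) :=
        val_dn_of_Hom (evW_Hom F.hom hw.2.2.1)
      rw [val_up_of_Hom, h4]
      · exact tb_GG s false (ta_BB s false h1)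
      · rw [h4]
        exact ta_mem_Hom hD (val_mem _)
    rw [dg, if_neg h2]
    refine ⟨GG_le_BB h3, fun l hl => ?_⟩
    simp only [lt, Option.some.injEq] at hl
    subst hl
    exact h3

lemma val_f (F : LF hD o J) (q : P hD (oo F.y)) :
    val (F.f q) = (val : P hD o →ₗ[ℚ] _).comp (evR D F.u) (val q) := rfl

lemma f_supported (F : LF hD o J) {T : Set (W X S J)} {M : Submodule ℚ (W X S I →₀ ℚ)}
    (h : ∀ w ∈ T, Valid D (oo F.y) w → val (evW D F.u w) ∈ M) {q : P hD (oo F.y)}
    (hq : ∀ w ∈ (val q).support, w ∈ T) : val (F.f q) ∈ M := by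
  have hq' : val q ∈ Finsupp.supported ℚ ℚ {w | w ∈ T ∧ Valid D (oo F.y) w} := by
    rw [Finsupp.mem_supported]
    intro w hw
    exact ⟨hq w hw, mem_PM.1 (val_mem q) w hw⟩
  rw [val_f]
  refine supported_induction (C := fun p => (val : P hD o →ₗ[ℚ] _).comp (evR D F.u) p ∈ M)
    ?_ ?_ ?_ ?_ hq'
  · simp
  · intro p q hp hq; rw [map_add]; exact add_mem hp hq
  · intro c p hp; rw [map_smul]; exact Submodule.smul_mem _ _ hp
  · intro w hw
    simp only [LinearMap.comp_apply, evR_single]
    exact h w hw.1 hw.2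

lemma f_BB (F : LF hD o J) {n : ℕ} {q : P hD (oo F.y)} (hq : val q ∈ BB F.lab n) :
    val (F.f q) ∈ BB (lab1 : I → Label X S) n := by
  refine f_supported F (T := {w | dg F.lab w ≤ n}) ?_ (mem_BB.1 hq)
  intro w hw hv
  exact BB_mono hw (evW_filt F hv).1

lemma f_Off (F : LF hD o J) {t : X} {q : P hD (oo F.y)} (hq : val q ∈ Off D (oo F.y) t) :
    val (F.f q) ∈ Off D o t := by
  refine f_supported F (T := {w | ob D (oo F.y) w ≠ some t})
    ?_ (fun w hw => (mem_Off.1 hq w hw).2)
  intro w hw hv
  obtain ⟨t', ht'⟩ := ob_oo (D := D) (y := F.y) w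
  have h1 := mem_Hom.1 (evW_Hom F.hom ht')
  rw [mem_Off]
  intro w' hw'
  refine ⟨(h1 w' hw').1, ?_⟩
  rw [(h1 w' hw').2, ← ht']
  exact hw

lemma evW_span {y : J → X} {u : J → P hD o} (h : ∀ j, val (u j) ∈ Hom D o (y j))
    (w : W X S J) (T : Set J) (hw : bs w ∈ T) :
    evW D u w ∈ Submodule.span (Alg D) (u '' T) := by
  induction w with
  | gen j => exact Submodule.subset_span ⟨j, hw, rfl⟩
  | E x w ih => exact Submodule.smul_mem _ _ (ih hw)
  | A s b w ih => exact Submodule.smul_mem _ _ (ih hw)
  | B s b w ih => exact Submodule.smul_mem _ _ (ih hw)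
  | C s w ih => exact Submodule.smul_mem _ _ (Submodule.smul_mem _ _ (ih hw))

lemma f_span (F : LF hD o J) (T : Set J) {q : P hD (oo F.y)}
    (hq : ∀ w ∈ (val q).support, bs w ∈ T) :
    F.f q ∈ Submodule.span (Alg D) (F.u '' T) := by
  have hq' : val q ∈ Finsupp.supported ℚ ℚ {w | bs w ∈ T} := by
    rw [Finsupp.mem_supported]
    intro w hw
    exact hq w hw
  change evR D F.u (val q) ∈ _
  refine supported_induction (C := fun p => evR D F.u p ∈ Submodule.span (Alg D) (F.u '' T))
    ?_ ?_ ?_ ?_ hq'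
  · simp
  · intro p q hp hq; rw [map_add]; exact add_mem hp hq
  · intro c p hp
    rw [map_smul, ← algebraMap_smul_P]
    exact Submodule.smul_mem _ _ hp
  · intro w hw
    rw [evR_single]
    exact evW_span F.hom w T hw

end Pool.Agent.Lib_helper33.Berg
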