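import Pool.Agent.Lib_helper33.BergModule

/-!
# Labels and filtrations on word modules
-/

universe u

set_option linter.unusedSectionVars false

namespace Pool.Agent.Lib_helper33.Berg

open Finsupp

variable {X S : Type u} {I : Type} {D : Data X S} {o : I → Option X}

/-- Labels. -/
inductive Label (X S : Type u) : Type u
  | ev : ℕ → Label X S
  | od : ℕ → X ⊕ S → Label X S

/-- labelled type of a word -/
def lt (lab : I → Label X S) : W X S I → Option (X ⊕ S)
  | .gen i => match lab i with
    | .ev _ => none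
    | .od _ l => some l
  | .E x _ => some (Sum.inl x)
  | .A s _ _ => some (Sum.inr s)
  | .B s _ _ => some (Sum.inr s)
  | .C s _ => some (Sum.inr s)

open Classical in
/-- labelled degree of a word -/
noncomputable def dg (lab : I → Label X S) : W X S I → ℕ
  | .gen i => match lab i with
    | .ev n => n
    | .od n _ => n + 1
  | .E x w => if lt lab w = some (Sum.inl x) then dg lab w else dg lab w + 1
  | .A s _ w => if lt lab w = some (Sum.inr s) then dg lab w else dg lab w + 1
  | .B s _ w => if lt lab w = some (Sum.inr s) then dg lab w else dg lab w + 1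
  | .C s w => if lt lab w = some (Sum.inr s) then dg lab w else dg lab w + 1

/-- Combinations of words of degree at most `n`. -/
noncomputable def BB (lab : I → Label X S) (n : ℕ) : Submodule ℚ (W X S I →₀ ℚ) :=
  Finsupp.supported ℚ ℚ {w | dg lab w ≤ n}

/-- Combinations of words of degree at most `n`, those of degree `n` being of type `l`. -/
noncomputable def GG (lab : I → Label X S) (n : ℕ) (l : X ⊕ S) : Submodule ℚ (W X S I →₀ ℚ) :=
  Finsupp.supported ℚ ℚ {w | dg lab w ≤ n ∧ (dg lab w = n → lt lab w = some l)}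

variable {lab : I → Label X S}

lemma mem_BB {n : ℕ} {p : W X S I →₀ ℚ} : p ∈ BB lab n ↔ ∀ w ∈ p.support, dg lab w ≤ n := by
  rw [BB, Finsupp.mem_supported]; rfl

lemma mem_GG {n : ℕ} {l : X ⊕ S} {p : W X S I →₀ ℚ} : p ∈ GG lab n l ↔
    ∀ w ∈ p.support, dg lab w ≤ n ∧ (dg lab w = n → lt lab w = some l) := by
  rw [GG, Finsupp.mem_supported]; rfl

lemma single_mem_BB {n : ℕ} {w : W X S I} (h : dg lab w ≤ n) (c : ℚ) : single w c ∈ BB lab n :=
  Finsupp.single_mem_supported ℚ c h

lemma single_mem_GG {n : ℕ} {l : X ⊕ S} {w : W X S I} (h : dg lab w ≤ n)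
    (h' : dg lab w = n → lt lab w = some l) (c : ℚ) : single w c ∈ GG lab n l :=
  Finsupp.single_mem_supported ℚ c ⟨h, h'⟩

lemma BB_mono {m n : ℕ} (h : m ≤ n) : BB lab m ≤ BB lab n := by
  intro p hp
  rw [mem_BB] at *
  exact fun w hw => (hp w hw).trans h

lemma GG_le_BB {n : ℕ} {l : X ⊕ S} : GG lab n l ≤ BB lab n := by
  intro p hp
  rw [mem_GG] at hp
  rw [mem_BB]
  exact fun w hw => (hp w hw).1

lemma BB_le_GG {n : ℕ} {l : X ⊕ S} : BB lab n ≤ GG lab (n + 1) l := by
  intro p hp
  rw [mem_BB] at hp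
  rw [mem_GG]
  intro w hw
  have := hp w hw
  exact ⟨by omega, fun h => by omega⟩

lemma supported_induction {T : Set (W X S I)} {C : (W X S I →₀ ℚ) → Prop} (h0 : C 0)
    (hadd : ∀ p q, C p → C q → C (p + q)) (hs : ∀ (c : ℚ) p, C p → C (c • p))
    (h : ∀ w ∈ T, C (single w 1)) {p : W X S I →₀ ℚ} (hp : p ∈ Finsupp.supported ℚ ℚ T) : C p := by
  rw [Finsupp.supported_eq_span_single] at hp
  induction hp using Submodule.span_induction with
  | mem x hx =>
    obtain ⟨w, hw, rfl⟩ := hx
    exact h w hw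
  | zero => exact h0
  | add x y _ _ hx hy => exact hadd _ _ hx hy
  | smul a x _ hx => exact hs a x hx

lemma map_supported {T : Set (W X S I)} {f : (W X S I →₀ ℚ) →ₗ[ℚ] (W X S I →₀ ℚ)}
    {M : Submodule ℚ (W X S I →₀ ℚ)} (h : ∀ w ∈ T, f (single w 1) ∈ M) {p : W X S I →₀ ℚ}
    (hp : p ∈ Finsupp.supported ℚ ℚ T) : f p ∈ M := by
  refine supported_induction (C := fun p => f p ∈ M) ?_ ?_ ?_ h hp
  · simp
  · intro p q hp hq; rw [map_add]; exact add_mem hp hq
  · intro c p hp; rw [map_smul]; exact Submodule.smul_mem _ _ hp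

/-! ### behaviour of the operators -/

lemma dg_E (x : X) (w : W X S I) : dg lab (.E x w) ≤ dg lab w + 1 := by
  simp only [dg]; split_ifs <;> omega

lemma te_BB {n : ℕ} (x : X) {p : W X S I →₀ ℚ} (hp : p ∈ BB lab n) :
    te D o x p ∈ GG lab (n + 1) (Sum.inl x) := by
  refine map_supported ?_ hp
  intro w hw
  have hw' : dg lab w ≤ n := hw
  by_cases hx : D.alive x
  · by_cases h : ob D o w = some x
    · rw [te_of_ob hx h]
      exact BB_le_GG (single_mem_BB hw' 1)
    · rw [te_of_ne hx h]
      refine single_mem_GG ?_ (fun _ => rfl) 1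
      have := dg_E (lab := lab) x w
      omega
  · rw [te_of_dead hx]; exact zero_mem _

lemma ta_word_GG {n : ℕ} (s : S) (b : Bool) {w : W X S I} (hw : dg lab w ≤ n)
    (hw' : dg lab w = n → lt lab w = some (Sum.inr s)) :
    ta D o s b (single w 1) ∈ GG lab n (Sum.inr s) := by
  by_cases hx : D.alive (D.x s b)
  swap
  · rw [ta_of_dead hx]; exact zero_mem _
  by_cases h : ob D o w = some (D.z s)
  swap
  · rw [ta_of_ob_ne h]; exact zero_mem _
  by_cases ht : ty w = some (Sum.inr s)
  swap
  · rw [ta_new hx h ht]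
    refine single_mem_GG ?_ (fun _ => rfl) 1
    simp only [dg]
    split_ifs with hl
    · exact hw
    · rcases Nat.lt_or_ge (dg lab w) n with h1 | h1
      · omega
      · exact absurd (hw' (by omega)) hl
  cases w with
  | gen i => simp [ty] at ht
  | E x w => simp [ty] at ht
  | A s' b' w =>
    simp only [ty, Option.some.injEq, Sum.inr.injEq] at ht
    subst ht
    rw [ta_single, taW, if_pos ⟨h, hx⟩]
    simp only [taR]
    refine single_mem_GG ?_ (fun _ => rfl) 1
    have h1 : lt lab (W.A s' b' w) = some (Sum.inr s') := rfl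
    rw [dg, if_pos h1]
    exact hw
  | B s' b' w =>
    simp only [ty, Option.some.injEq, Sum.inr.injEq] at ht
    subst ht
    rw [ta_B hx]
    split_ifs
    · simp only [dg] at hw
      split_ifs at hw with hl
      · exact single_mem_GG hw (fun _ => hl) 1
      · exact single_mem_GG (by omega) (fun _ => by omega) 1
    · exact zero_mem _
  | C s' w =>
    simp only [ty, Option.some.injEq, Sum.inr.injEq] at ht
    subst ht
    rw [ta_C hx]
    split_ifs
    · refine single_mem_GG ?_ (fun _ => rfl) 1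
      simp only [dg] at hw ⊢
      exact hw
    · exact zero_mem _

lemma ta_GG {n : ℕ} (s : S) (b : Bool) {p : W X S I →₀ ℚ} (hp : p ∈ GG lab n (Sum.inr s)) :
    ta D o s b p ∈ GG lab n (Sum.inr s) := by
  refine map_supported ?_ hp
  intro w hw
  exact ta_word_GG s b hw.1 hw.2

lemma ta_BB {n : ℕ} (s : S) (b : Bool) {p : W X S I →₀ ℚ} (hp : p ∈ BB lab n) :
    ta D o s b p ∈ GG lab (n + 1) (Sum.inr s) := ta_GG s b (BB_le_GG hp)

lemma tb_word_GG {n : ℕ} (s : S) (b : Bool) {w : W X S I} (hw : dg lab w ≤ n)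
    (hw' : dg lab w = n → lt lab w = some (Sum.inr s)) :
    tb D o s b (single w 1) ∈ GG lab n (Sum.inr s) := by
  by_cases hx : D.alive (D.x s b)
  swap
  · rw [tb_of_dead hx]; exact zero_mem _
  by_cases h : ob D o w = some (D.x s b)
  swap
  · rw [tb_of_ob_ne h]; exact zero_mem _
  by_cases ht : ty w = some (Sum.inr s)
  swap
  · rw [tb_new hx h ht]
    refine single_mem_GG ?_ (fun _ => rfl) 1
    simp only [dg]
    split_ifs with hl
    · exact hw
    · rcases Nat.lt_or_ge (dg lab w) n with h1 | h1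
      · omega
      · exact absurd (hw' (by omega)) hl
  cases w with
  | gen i => simp [ty] at ht
  | E x w => simp [ty] at ht
  | A s' b' w =>
    simp only [ty, Option.some.injEq, Sum.inr.injEq] at ht
    subst ht
    rw [tb_single, tbW, if_pos ⟨h, hx⟩]
    have h1 : single w (1 : ℚ) ∈ GG lab n (Sum.inr s') := by
      simp only [dg] at hw
      split_ifs at hw with hl
      · exact single_mem_GG hw (fun _ => hl) 1
      · exact single_mem_GG (by omega) (fun _ => by omega) 1
    have h2 : single (W.C s' w) (1 : ℚ) ∈ GG lab n (Sum.inr s') := by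
      refine single_mem_GG ?_ (fun _ => rfl) 1
      simp only [dg] at hw ⊢
      exact hw
    simp only [tbR, if_true]
    split_ifs
    · exact h2
    · exact sub_mem h1 h2
    · exact h1
  | B s' b' w =>
    simp only [ty, Option.some.injEq, Sum.inr.injEq] at ht
    subst ht
    rw [tb_single, tbW, if_pos ⟨h, hx⟩]
    simp only [tbR]
    refine single_mem_GG ?_ (fun _ => rfl) 1
    have h1 : lt lab (W.B s' b' w) = some (Sum.inr s') := rfl
    rw [dg, if_pos h1]
    exact hw
  | C s' w =>
    simp only [ty, Option.some.injEq, Sum.inr.injEq] at ht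
    subst ht
    rw [tb_single, tbW, if_pos ⟨h, hx⟩]
    simp only [tbR]
    refine single_mem_GG ?_ (fun _ => rfl) 1
    have h1 : lt lab (W.C s' w) = some (Sum.inr s') := rfl
    rw [dg, if_pos h1]
    exact hw

lemma tb_GG {n : ℕ} (s : S) (b : Bool) {p : W X S I →₀ ℚ} (hp : p ∈ GG lab n (Sum.inr s)) :
    tb D o s b p ∈ GG lab n (Sum.inr s) := by
  refine map_supported ?_ hp
  intro w hw
  exact tb_word_GG s b hw.1 hw.2

lemma tb_BB {n : ℕ} (s : S) (b : Bool) {p : W X S I →₀ ℚ} (hp : p ∈ BB lab n) :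
    tb D o s b p ∈ GG lab (n + 1) (Sum.inr s) := tb_GG s b (BB_le_GG hp)

/-! ### the unlabelled case -/

/-- The trivial labels: all generators have label `ev 1`. -/
def lab1 : I → Label X S := fun _ => .ev 1

lemma lt_lab1 (w : W X S I) : lt lab1 w = ty w := by
  cases w <;> rfl

lemma dg_lab1_A {s : S} {b : Bool} {w : W X S I} (h : ty w ≠ some (Sum.inr s)) :
    dg lab1 (.A s b w) = dg lab1 w + 1 := by
  rw [dg, if_neg (by rwa [lt_lab1])]

lemma dg_lab1_B {s : S} {b : Bool} {w : W X S I} (h : ty w ≠ some (Sum.inr s)) :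
    dg lab1 (.B s b w) = dg lab1 w + 1 := by
  rw [dg, if_neg (by rwa [lt_lab1])]

lemma dg_lab1_C {s : S} {w : W X S I} (h : ty w ≠ some (Sum.inr s)) :
    dg lab1 (.C s w) = dg lab1 w + 1 := by
  rw [dg, if_neg (by rwa [lt_lab1])]

lemma dg_lab1_pos (w : W X S I) : 1 ≤ dg lab1 w := by
  induction w with
  | gen i => simp [dg, lab1]
  | E x w ih => simp only [dg]; split_ifs <;> omega
  | A s b w ih => simp only [dg]; split_ifs <;> omega
  | B s b w ih => simp only [dg]; split_ifs <;> omega
  | C s w ih => simp only [dg]; split_ifs <;> omega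

lemma BB_lab1_zero {p : W X S I →₀ ℚ} (hp : p ∈ BB (lab1 : I → Label X S) 0) : p = 0 := by
  rw [mem_BB] at hp
  rw [← Finsupp.support_eq_empty, Finset.eq_empty_iff_forall_notMem]
  intro w hw
  have h1 := hp w hw
  have h2 := dg_lab1_pos w
  omega

/-- leading coefficients of `ta` -/
lemma ta_coeff {s : S} {b : Bool} (hx : D.alive (D.x s b)) {n : ℕ} {p : W X S I →₀ ℚ}
    (hp : p ∈ BB (lab1 : I → Label X S) n) (hp' : p ∈ Hom D o (D.z s)) {w : W X S I}
    (hw : w ∈ p.support) (hn : dg lab1 w = n) (ht : ty w ≠ some (Sum.inr s)) :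
    (ta D o s b p) (.A s b w) = p w := by
  classical
  rw [mem_BB] at hp
  rw [mem_Hom] at hp'
  rw [ta, Finsupp.linearCombination_apply, Finsupp.sum_apply, Finsupp.sum, Finset.sum_eq_single w]
  · rw [← ta_single, ta_new hx (hp' w hw).2 ht]
    simp
  · intro v hv hvw
    have hv1 := hp' v hv
    have hv2 := hp v hv
    rw [← ta_single, Finsupp.smul_apply]
    by_cases htv : ty v = some (Sum.inr s)
    swap
    · rw [ta_new hx hv1.2 htv, Finsupp.single_apply, if_neg (by simpa using hvw), smul_zero]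
    cases v with
    | gen i => simp [ty] at htv
    | E x w => simp [ty] at htv
    | A s' b' w' =>
      simp only [ty, Option.some.injEq, Sum.inr.injEq] at htv
      subst htv
      rw [ta_single, taW, if_pos ⟨hv1.2, hx⟩]
      simp only [taR]
      rw [Finsupp.single_apply, if_neg (by simpa using hvw), smul_zero]
    | B s' b' w' =>
      simp only [ty, Option.some.injEq, Sum.inr.injEq] at htv
      subst htv
      rw [ta_B hx]
      split_ifs with hb
      · rw [Finsupp.single_apply, if_neg, smul_zero]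
        rintro rfl
        have h3 := dg_lab1_B (b := b') (hv1.1.2.2.1)
        have h4 := dg_lab1_A (b := b) ht
        omega
      · simp
    | C s' w' =>
      simp only [ty, Option.some.injEq, Sum.inr.injEq] at htv
      subst htv
      rw [ta_C hx]
      split_ifs with hb
      · subst hb
        rw [Finsupp.single_apply, if_neg, smul_zero]
        intro h
        simp only [W.A.injEq, true_and] at h
        subst h
        have h3 := dg_lab1_C ht
        omega
      · simp
  · intro hw'
    exact absurd hw hw'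

lemma K1_ta {s : S} {b : Bool} (hx : D.alive (D.x s b)) {n : ℕ} {p : W X S I →₀ ℚ}
    (hp : p ∈ BB (lab1 : I → Label X S) n) (hp' : p ∈ Hom D o (D.z s))
    (h : ta D o s b p ∈ BB (lab1 : I → Label X S) n) :
    p ∈ GG (lab1 : I → Label X S) n (Sum.inr s) := by
  rw [mem_GG]
  intro w hw
  refine ⟨mem_BB.1 hp w hw, fun hn => ?_⟩
  rw [lt_lab1]
  by_contra ht
  have h1 := ta_coeff hx hp hp' hw hn ht
  have h2 : (W.A s b w) ∈ (ta D o s b p).support := by
    rw [Finsupp.mem_support_iff, h1]
    exact Finsupp.mem_support_iff.1 hw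
  have h3 := mem_BB.1 h _ h2
  rw [dg_lab1_A ht] at h3
  omega

/-- Elements without components at the object `x`. -/
def Off (D : Data X S) (o : I → Option X) (x : X) : Submodule ℚ (W X S I →₀ ℚ) :=
  Finsupp.supported ℚ ℚ {w | Valid D o w ∧ ob D o w ≠ some x}

lemma mem_Off {t : X} {p : W X S I →₀ ℚ} :
    p ∈ Off D o t ↔ ∀ w ∈ p.support, Valid D o w ∧ ob D o w ≠ some t := by
  rw [Off, Finsupp.mem_supported]; rfl

lemma Off_le (t : X) : Off D o t ≤ PM D o := by
  intro p hp
  rw [mem_Off] at hp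
  rw [mem_PM]
  exact fun w hw => (hp w hw).1

lemma K1_te {x : X} (hx : D.alive x) {n : ℕ} {p : W X S I →₀ ℚ}
    (hp : p ∈ BB (lab1 : I → Label X S) n) (hp' : p ∈ Off D o x)
    (h : te D o x p ∈ BB (lab1 : I → Label X S) n) :
    ∀ w ∈ p.support, dg (lab1 : I → Label X S) w < n := by
  classical
  intro w hw
  refine lt_of_le_of_ne (mem_BB.1 hp w hw) (fun hn => ?_)
  have hwx := (mem_Off.1 hp' w hw)
  have ht : ty w ≠ some (Sum.inl x) := by
    cases w <;> simp_all [ty, ob]
  have h1 : (te D o x p) (.E x w) = p w := by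
    rw [te, Finsupp.linearCombination_apply, Finsupp.sum_apply, Finsupp.sum,
      Finset.sum_eq_single w]
    · rw [← te_single, te_of_ne hx hwx.2]
      simp
    · intro v hv hvw
      rw [← te_single, te_of_ne hx (mem_Off.1 hp' v hv).2, Finsupp.smul_apply,
        Finsupp.single_apply, if_neg (by simpa using hvw), smul_zero]
    · intro hw'
      exact absurd hw hw'
  have h2 : (W.E x w) ∈ (te D o x p).support := by
    rw [Finsupp.mem_support_iff, h1]
    exact Finsupp.mem_support_iff.1 hw
  have h3 := mem_BB.1 h _ h2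
  rw [dg, if_neg (by rwa [lt_lab1])] at h3
  omega

/-! ### labelled generators -/

/-- Admissibility of a type for a generator at an object. -/
def Adm (D : Data X S) (t : X) : X ⊕ S → Prop
  | .inl x => t = x
  | .inr s => ∃ b, D.alive (D.x s b) ∧ t = D.x s b

/-- Labels are admissible. -/
def LabOk (D : Data X S) (o : I → Option X) (lab : I → Label X S) : Prop :=
  ∀ i n l, lab i = .od n l → ∃ t, o i = some t ∧ Adm D t l

lemma lt_ne_of_z (hD : D.Good) (hl : LabOk D o lab) {s : S} {w : W X S I}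
    (ht : ty w ≠ some (Sum.inr s)) (h : ob D o w = some (D.z s)) :
    lt lab w ≠ some (Sum.inr s) := by
  intro h1
  cases w with
  | gen i =>
    simp only [lt] at h1
    split at h1
    · simp at h1
    · rename_i n l hli
      simp only [Option.some.injEq] at h1
      subst h1
      obtain ⟨t, ht1, b, _, rfl⟩ := hl i n _ hli
      simp only [ob] at h
      rw [h] at ht1
      simp only [Option.some.injEq] at ht1
      exact hD.z_ne s b ht1
  | E x w => simp [lt] at h1
  | A s' b' w => exact ht h1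
  | B s' b' w => exact ht h1
  | C s' w => exact ht h1

lemma lt_ne_of_off (hl : LabOk D o lab) {x : X} {w : W X S I}
    (h : ob D o w ≠ some x) : lt lab w ≠ some (Sum.inl x) := by
  intro h1
  cases w with
  | gen i =>
    simp only [lt] at h1
    split at h1
    · simp at h1
    · rename_i n l hli
      simp only [Option.some.injEq] at h1
      subst h1
      obtain ⟨t, ht1, ht2⟩ := hl i n _ hli
      simp only [Adm] at ht2
      subst ht2
      exact h ht1
  | E x' w =>
    simp only [lt, Option.some.injEq, Sum.inl.injEq] at h1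
    subst h1
    exact h rfl
  | A s' b' w => simp [lt] at h1
  | B s' b' w => simp [lt] at h1
  | C s' w => simp [lt] at h1

/-- Combinations of generators in a set. -/
def GenS (X S : Type u) (T : Set I) : Submodule ℚ (W X S I →₀ ℚ) :=
  Finsupp.supported ℚ ℚ {w | ∃ i ∈ T, w = W.gen i}

lemma single_mem_GenS {T : Set I} {i : I} (h : i ∈ T) (c : ℚ) :
    (single (W.gen i) c : W X S I →₀ ℚ) ∈ GenS X S T :=
  Finsupp.single_mem_supported ℚ c ⟨i, h, rfl⟩

lemma decomp_x (hD : D.Good) (hl : LabOk D o lab) {n : ℕ} {s : S} {b : Bool}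
    {q : W X S I →₀ ℚ} (hq : q ∈ GG lab (n + 1) (Sum.inr s)) (hq' : q ∈ Hom D o (D.x s b)) :
    ∃ q0 γ c, q0 ∈ BB lab n ∧ q0 ∈ Hom D o (D.x s b) ∧ γ ∈ BB lab n ∧ γ ∈ Hom D o (D.z s) ∧
      c ∈ GenS X S {i | lab i = .od n (Sum.inr s) ∧ o i = some (D.x s b)} ∧
      q = q0 + ta D o s b γ + c := by
  have hqq : q ∈ Finsupp.supported ℚ ℚ {w : W X S I |
      (dg lab w ≤ n + 1 ∧ (dg lab w = n + 1 → lt lab w = some (Sum.inr s))) ∧
      Valid D o w ∧ ob D o w = some (D.x s b)} := by
    rw [Finsupp.mem_supported]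
    intro w hw
    exact ⟨mem_GG.1 hq w hw, mem_Hom.1 hq' w hw⟩
  refine supported_induction (C := fun q => ∃ q0 γ c, q0 ∈ BB lab n ∧ q0 ∈ Hom D o (D.x s b) ∧
    γ ∈ BB lab n ∧ γ ∈ Hom D o (D.z s) ∧
      c ∈ GenS X S {i | lab i = .od n (Sum.inr s) ∧ o i = some (D.x s b)} ∧
      q = q0 + ta D o s b γ + c) ?_ ?_ ?_ ?_ hqq
  · exact ⟨0, 0, 0, zero_mem _, zero_mem _, zero_mem _, zero_mem _, zero_mem _, by simp⟩
  · rintro _ _ ⟨q0, γ, c, h1, h2, h3, h4, h5, rfl⟩ ⟨q0', γ', c', h1', h2', h3', h4', h5', rfl⟩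
    refine ⟨q0 + q0', γ + γ', c + c', add_mem h1 h1', add_mem h2 h2', add_mem h3 h3',
      add_mem h4 h4', add_mem h5 h5', ?_⟩
    rw [map_add]; abel
  · rintro a _ ⟨q0, γ, c, h1, h2, h3, h4, h5, rfl⟩
    refine ⟨a • q0, a • γ, a • c, Submodule.smul_mem _ _ h1, Submodule.smul_mem _ _ h2,
      Submodule.smul_mem _ _ h3, Submodule.smul_mem _ _ h4, Submodule.smul_mem _ _ h5, ?_⟩
    rw [map_smul, smul_add, smul_add]
  · rintro w ⟨⟨hw1, hw2⟩, hw3, hw4⟩
    rcases Nat.lt_or_ge n (dg lab w) with hn | hn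
    swap
    · exact ⟨single w 1, 0, 0, single_mem_BB hn 1, single_mem_Hom hw3 hw4 1, zero_mem _,
        zero_mem _, zero_mem _, by simp⟩
    have hn' : dg lab w = n + 1 := by omega
    have hlt := hw2 hn'
    cases w with
    | gen i =>
      refine ⟨0, 0, single (.gen i) 1, zero_mem _, zero_mem _, zero_mem _, zero_mem _,
        ?_, by simp⟩
      refine single_mem_GenS ?_ 1
      refine ⟨?_, hw4⟩
      simp only [dg] at hn'
      simp only [lt] at hlt
      cases hli : lab i with
      | ev m => simp [hli] at hlt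
      | od m l =>
        simp only [hli, Option.some.injEq] at hlt hn'
        subst hlt
        rw [show m = n by omega]
    | E x w => simp [lt] at hlt
    | A s' b' w =>
      simp only [lt, Option.some.injEq, Sum.inr.injEq] at hlt
      subst hlt
      simp only [ob, Option.some.injEq] at hw4
      have hb : b' = b := by
        have := hD.x_ne s'
        cases b <;> cases b' <;> simp_all
      subst hb
      have h5 : lt lab w ≠ some (Sum.inr s') := lt_ne_of_z hD hl hw3.2.2.1 hw3.2.1
      rw [dg, if_neg h5] at hn'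
      refine ⟨0, single w 1, 0, zero_mem _, zero_mem _, single_mem_BB (by omega) 1,
        single_mem_Hom hw3.2.2.2 hw3.2.1 1, zero_mem _, ?_⟩
      rw [ta_new hw3.1 hw3.2.1 hw3.2.2.1]
      simp
    | B s' b' w =>
      simp only [lt, Option.some.injEq, Sum.inr.injEq] at hlt
      subst hlt
      simp only [ob, Option.some.injEq] at hw4
      exact absurd hw4 (hD.z_ne _ _)
    | C s' w =>
      simp only [lt, Option.some.injEq, Sum.inr.injEq] at hlt
      subst hlt
      simp only [ob, Option.some.injEq] at hw4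
      exact absurd hw4 (hD.z_ne _ _)

lemma decomp_E (hl : LabOk D o lab) {n : ℕ} {x : X}
    {q : W X S I →₀ ℚ} (hq : q ∈ GG lab (n + 1) (Sum.inl x)) (hq' : q ∈ Hom D o x) :
    ∃ q0 γ c, q0 ∈ BB lab n ∧ q0 ∈ Hom D o x ∧ γ ∈ BB lab n ∧ γ ∈ Off D o x ∧
      c ∈ GenS X S {i | lab i = .od n (Sum.inl x) ∧ o i = some x} ∧
      q = q0 + te D o x γ + c := by
  have hqq : q ∈ Finsupp.supported ℚ ℚ {w : W X S I |
      (dg lab w ≤ n + 1 ∧ (dg lab w = n + 1 → lt lab w = some (Sum.inl x))) ∧
      Valid D o w ∧ ob D o w = some x} := by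
    rw [Finsupp.mem_supported]
    intro w hw
    exact ⟨mem_GG.1 hq w hw, mem_Hom.1 hq' w hw⟩
  refine supported_induction (C := fun q => ∃ q0 γ c, q0 ∈ BB lab n ∧ q0 ∈ Hom D o x ∧
    γ ∈ BB lab n ∧ γ ∈ Off D o x ∧
      c ∈ GenS X S {i | lab i = .od n (Sum.inl x) ∧ o i = some x} ∧
      q = q0 + te D o x γ + c) ?_ ?_ ?_ ?_ hqq
  · exact ⟨0, 0, 0, zero_mem _, zero_mem _, zero_mem _, zero_mem _, zero_mem _, by simp⟩
  · rintro _ _ ⟨q0, γ, c, h1, h2, h3, h4, h5, rfl⟩ ⟨q0', γ', c', h1', h2', h3', h4', h5', rfl⟩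
    refine ⟨q0 + q0', γ + γ', c + c', add_mem h1 h1', add_mem h2 h2', add_mem h3 h3',
      add_mem h4 h4', add_mem h5 h5', ?_⟩
    rw [map_add]; abel
  · rintro a _ ⟨q0, γ, c, h1, h2, h3, h4, h5, rfl⟩
    refine ⟨a • q0, a • γ, a • c, Submodule.smul_mem _ _ h1, Submodule.smul_mem _ _ h2,
      Submodule.smul_mem _ _ h3, Submodule.smul_mem _ _ h4, Submodule.smul_mem _ _ h5, ?_⟩
    rw [map_smul, smul_add, smul_add]
  · rintro w ⟨⟨hw1, hw2⟩, hw3, hw4⟩
    rcases Nat.lt_or_ge n (dg lab w) with hn | hn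
    swap
    · exact ⟨single w 1, 0, 0, single_mem_BB hn 1, single_mem_Hom hw3 hw4 1, zero_mem _,
        zero_mem _, zero_mem _, by simp⟩
    have hn' : dg lab w = n + 1 := by omega
    have hlt := hw2 hn'
    cases w with
    | gen i =>
      refine ⟨0, 0, single (.gen i) 1, zero_mem _, zero_mem _, zero_mem _, zero_mem _,
        ?_, by simp⟩
      refine single_mem_GenS ?_ 1
      refine ⟨?_, hw4⟩
      simp only [dg] at hn'
      simp only [lt] at hlt
      cases hli : lab i with
      | ev m => simp [hli] at hlt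
      | od m l =>
        simp only [hli, Option.some.injEq] at hlt hn'
        subst hlt
        rw [show m = n by omega]
    | E x' w =>
      simp only [lt, Option.some.injEq, Sum.inl.injEq] at hlt
      subst hlt
      have h5 : lt lab w ≠ some (Sum.inl x') := lt_ne_of_off hl hw3.2.1
      rw [dg, if_neg h5] at hn'
      refine ⟨0, single w 1, 0, zero_mem _, zero_mem _, single_mem_BB (by omega) 1,
        Finsupp.single_mem_supported ℚ 1 ⟨hw3.2.2, hw3.2.1⟩, zero_mem _, ?_⟩
      rw [te_of_ne hw3.1 hw3.2.1]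
      simp
    | A s' b' w => simp [lt] at hlt
    | B s' b' w => simp [lt] at hlt
    | C s' w => simp [lt] at hlt

end Pool.Agent.Lib_helper33.Berg
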