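import Pool.Agent.Lib_helper33.BergMoves

/-!
# Families of minimal weight are free
-/

universe u

set_option linter.unusedSectionVars false

namespace Pool.Agent.Lib_helper33.Berg

open Finsupp

variable {X S : Type u} {I J : Type} {D : Data X S} {o : I → Option X} {hD : D.Good}

lemma GenS_exists {T : Set J} {c : W X S J →₀ ℚ} (hc : c ∈ GenS X S T) (h0 : c ≠ 0) :
    ∃ j ∈ T, c (.gen j) ≠ 0 := by
  rw [GenS, Finsupp.mem_supported] at hc
  obtain ⟨w, hw⟩ := Finsupp.support_nonempty_iff.2 h0
  obtain ⟨j, hj, rfl⟩ := hc hw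
  exact ⟨j, hj, Finsupp.mem_support_iff.1 hw⟩

lemma Avoid_gen {j : J} {p : W X S J →₀ ℚ} (hp : p ∈ Avoid X S j) : p (.gen j) = 0 := by
  by_contra h
  exact mem_Avoid.1 hp _ (Finsupp.mem_support_iff.2 h) rfl

lemma GenS_sub_single {T : Set J} {c : W X S J →₀ ℚ} (hc : c ∈ GenS X S T) (j : J) :
    c - single (.gen j) (c (.gen j)) ∈ Avoid X S j := by
  classical
  rw [GenS, Finsupp.mem_supported] at hc
  rw [mem_Avoid]
  rintro w hw rfl
  rw [Finsupp.mem_support_iff, Finsupp.sub_apply, Finsupp.single_apply] at hw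
  by_cases h : W.gen (bs w) = w
  · rw [if_pos h] at hw
    apply hw
    rw [h, sub_self]
  · rw [if_neg h, sub_zero] at hw
    obtain ⟨i, _, hi⟩ := hc (Finsupp.mem_support_iff.2 hw)
    apply h
    rw [hi]
    rfl

/-- words without the top-degree words of type `l` -/
noncomputable def NG (lab : I → Label X S) (n : ℕ) (l : X ⊕ S) : Submodule ℚ (W X S I →₀ ℚ) :=
  Finsupp.supported ℚ ℚ {w | dg lab w ≤ n ∧ (dg lab w = n → lt lab w ≠ some l)}

lemma mem_NG {lab : I → Label X S} {n : ℕ} {l : X ⊕ S} {p : W X S I →₀ ℚ} : p ∈ NG lab n l ↔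
    ∀ w ∈ p.support, dg lab w ≤ n ∧ (dg lab w = n → lt lab w ≠ some l) := by
  rw [NG, Finsupp.mem_supported]; rfl

lemma GG_le_NG {lab : I → Label X S} {n : ℕ} {l l' : X ⊕ S} (h : l ≠ l') :
    GG lab n l ≤ NG lab n l' := by
  intro p hp
  rw [mem_GG] at hp
  rw [mem_NG]
  intro w hw
  refine ⟨(hp w hw).1, fun hn => ?_⟩
  rw [(hp w hw).2 hn]
  simpa using h

lemma BB_le_NG {lab : I → Label X S} {n : ℕ} {l : X ⊕ S} :
    BB lab n ≤ NG lab (n + 1) l := by
  intro p hp
  rw [mem_BB] at hp
  rw [mem_NG]
  intro w hw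
  have := hp w hw
  exact ⟨by omega, fun hn => by omega⟩

lemma GG_inf_NG {lab : I → Label X S} {n : ℕ} {l : X ⊕ S} {p : W X S I →₀ ℚ}
    (h : p ∈ GG lab (n + 1) l) (h' : p ∈ NG lab (n + 1) l) : p ∈ BB lab n := by
  rw [mem_GG] at h
  rw [mem_NG] at h'
  rw [mem_BB]
  intro w hw
  have h1 := h w hw
  have h2 := h' w hw
  by_contra h3
  have h4 : dg lab w = n + 1 := by omega
  exact h2.2 h4 (h1.2 h4)

/-- Elements at an object which is not a target of the type `l`. -/
lemma GG_off {lab : I → Label X S} (hl : LabOk D o lab) {n : ℕ} {l : X ⊕ S} {t : X}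
    {p : W X S I →₀ ℚ} (hp : p ∈ GG lab (n + 1) l) (hp' : p ∈ Hom D o t)
    (h1 : ¬ Adm D t l) (h2 : ∀ s, l = Sum.inr s → t ≠ D.z s) : p ∈ BB lab n := by
  rw [mem_GG] at hp
  rw [mem_Hom] at hp'
  rw [mem_BB]
  intro w hw
  by_contra h3
  have h4 : dg lab w = n + 1 := by have := (hp w hw).1; omega
  have h5 := (hp w hw).2 h4
  have h6 := hp' w hw
  cases w with
  | gen i =>
    simp only [lt] at h5
    split at h5
    · simp at h5
    · rename_i m l' hli
      simp only [Option.some.injEq] at h5
      subst h5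
      obtain ⟨t', ht1, ht2⟩ := hl i m _ hli
      have h7 : o i = some t := h6.2
      rw [h7] at ht1
      simp only [Option.some.injEq] at ht1
      subst ht1
      exact h1 ht2
  | E x w =>
    simp only [lt, Option.some.injEq] at h5
    subst h5
    have h7 := h6.2
    simp only [ob, Option.some.injEq] at h7
    exact h1 h7.symm
  | A s b w =>
    simp only [lt, Option.some.injEq] at h5
    subst h5
    have h7 := h6.2
    simp only [ob, Option.some.injEq] at h7
    exact h1 ⟨b, h6.1.1, h7.symm⟩
  | B s b w =>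
    simp only [lt, Option.some.injEq] at h5
    subst h5
    have h7 := h6.2
    simp only [ob, Option.some.injEq] at h7
    exact h2 s rfl h7.symm
  | C s w =>
    simp only [lt, Option.some.injEq] at h5
    subst h5
    have h7 := h6.2
    simp only [ob, Option.some.injEq] at h7
    exact h2 s rfl h7.symm

lemma labOk_lab1 : LabOk D o (lab1 : I → Label X S) := by
  intro i n l h
  simp [lab1] at h

lemma dg_gt_of_ev {lab : J → Label X S} {m : ℕ} (w : W X S J) (h : lab (bs w) = .ev m) :
    w = .gen (bs w) ∨ m + 1 ≤ dg lab w := by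
  have key : ∀ (w' : W X S J) (d : ℕ), bs w' = bs w → (w' = .gen (bs w') ∨ m + 1 ≤ dg lab w') →
      ∀ l, d = (if lt lab w' = some l then dg lab w' else dg lab w' + 1) → m + 1 ≤ d := by
    classical
    intro w' d hb hw' l hd
    rcases hw' with hw' | hw'
    · have h1 : lt lab w' = none := by
        rw [hw', hb]; simp only [lt, h]
      have h2 : dg lab w' = m := by
        rw [hw', hb]; simp only [dg, h]
      rw [h1, if_neg (by simp), h2] at hd
      omega
    · split_ifs at hd <;> omega
  induction w with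
  | gen j => left; rfl
  | E x w ih => right; exact key w _ rfl (ih h (by simpa [bs] using key)) _ (by rw [dg])
  | A s b w ih => right; exact key w _ rfl (ih h (by simpa [bs] using key)) _ (by rw [dg])
  | B s b w ih => right; exact key w _ rfl (ih h (by simpa [bs] using key)) _ (by rw [dg])
  | C s w ih => right; exact key w _ rfl (ih h (by simpa [bs] using key)) _ (by rw [dg])

section main

variable [Fintype J] {C : (J : Type) → (J → X) → (J → P hD o) → Prop}

/-- Hypotheses of the main induction. -/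
structure Setup (C : (J : Type) → (J → X) → (J → P hD o) → Prop) (F : LF hD o J) : Prop where
  hC : Closed hD o C
  hF : C J F.y F.u
  hmin : IsMin C F
  hne : ∀ j, F.lab j ≠ .ev 0

/-- Induction hypothesis. -/
def IH (F : LF hD o J) (n : ℕ) : Prop :=
  ∀ (l : X ⊕ S) (q : P hD (oo F.y)), val q ∈ BB F.lab n →
    val (F.f q) ∈ GG (lab1 : I → Label X S) n l → val q ∈ GG F.lab n l

variable {F : LF hD o J}

lemma gen_part_zero (H : Setup C F) {n : ℕ} {l : X ⊕ S} {t : X} {q : P hD (oo F.y)}
    (hqt : val q ∈ Hom D (oo F.y) t) {r c : W X S J →₀ ℚ}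
    (hr : ∀ j, F.lab j = .od n l → r ∈ Avoid X S j)
    (hc : c ∈ GenS X S {i | F.lab i = .od n l ∧ oo F.y i = some t})
    (hq : val q = r + c) (hf : val (F.f q) ∈ BB (lab1 : I → Label X S) n) : c = 0 := by
  by_contra hc0
  obtain ⟨j0, ⟨hj1, hj2⟩, hj3⟩ := GenS_exists hc hc0
  have hr0 := hr j0 hj1
  have h1 : val q (.gen j0) = c (.gen j0) := by
    rw [hq, Finsupp.add_apply, Avoid_gen hr0, zero_add]
  have hj2' : F.y j0 = t := by simpa [oo] using hj2
  refine no_trans H.hC F H.hF H.hmin j0 q (by rw [hj2']; exact hqt) (by rw [h1]; exact hj3) ?_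
    (.ev n) hf (by rw [hj1]; exact om_ev_lt_od n l)
  rw [h1, hq, add_sub_assoc]
  exact add_mem hr0 (GenS_sub_single hc j0)

lemma BB_avoid_od {n : ℕ} {l : X ⊕ S} {j : J} (hj : F.lab j = .od n l) {r : W X S J →₀ ℚ}
    (hr : r ∈ BB F.lab n) : r ∈ Avoid X S j := by
  refine BB_le_Avoid ?_ hr
  simp only [dg, hj]
  omega

/-- the case of an element at `x s b` -/
lemma case_x (H : Setup C F) {n : ℕ} (hI : IH F n) {s : S} {b : Bool} {q : P hD (oo F.y)}
    (hx : D.alive (D.x s b))
    (hq : val q ∈ GG F.lab (n + 1) (Sum.inr s)) (hqt : val q ∈ Hom D (oo F.y) (D.x s b))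
    (hf : val (F.f q) ∈ BB (lab1 : I → Label X S) n) : val q ∈ BB F.lab n := by
  obtain ⟨q0, γ, c, h1, h2, h3, h4, h5, h6⟩ := decomp_x hD F.labOk hq hqt
  have hc : c = 0 := by
    refine gen_part_zero H hqt (r := q0 + ta D (oo F.y) s b γ) ?_ h5 h6 hf
    intro j hj
    exact add_mem (BB_avoid_od hj h1) (ta_Avoid (BB_avoid_od hj h3))
  rw [hc, add_zero] at h6
  let q0' := ofPM hD q0 (Hom_le _ h2)
  let γ' := ofPM hD γ (Hom_le _ h4)
  have hγ' : val γ' = γ := rfl
  have h7 : q = q0' + dn D s b • γ' := by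
    apply val_injective
    rw [map_add, val_dn_of_Hom (p := γ') h4, hγ']
    exact h6
  have h8 : F.f q = F.f q0' + dn D s b • F.f γ' := by
    rw [h7, map_add, map_smul]
  have h9 : val (F.f γ') ∈ Hom D o (D.z s) := f_Hom F h4
  have h10 : ta D o s b (val (F.f γ')) ∈ BB (lab1 : I → Label X S) n := by
    rw [← val_dn_of_Hom h9, show dn D s b • F.f γ' = F.f q - F.f q0' by rw [h8]; abel, map_sub]
    exact sub_mem hf (f_BB F h1)
  have h11 := K1_ta hx (f_BB F (q := γ') h3) h9 h10
  have h12 := hI _ γ' h3 h11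
  rw [h6]
  exact add_mem h1 (GG_le_BB (ta_GG s b h12))

lemma te_lt {lab : J → Label X S} {o' : J → Option X} {x : X} {n : ℕ} {p : W X S J →₀ ℚ}
    (hp : ∀ w ∈ p.support, dg lab w < n) : te D o' x p ∈ BB lab n := by
  have hp' : p ∈ Finsupp.supported ℚ ℚ {w : W X S J | dg lab w < n} := by
    rw [Finsupp.mem_supported]; exact fun w hw => hp w hw
  refine map_supported ?_ hp'
  intro w hw
  have hw' : dg lab w < n := hw
  by_cases hx : D.alive x
  · by_cases h : ob D o' w = some x
    · rw [te_of_ob hx h]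
      exact single_mem_BB hw'.le 1
    · rw [te_of_ne hx h]
      refine single_mem_BB ?_ 1
      have := dg_E (lab := lab) x w
      omega
  · rw [te_of_dead hx]; exact zero_mem _

/-- the case of an element at `x` of type `inl x` -/
lemma case_E (H : Setup C F) {n : ℕ} (hI : IH F n) {x : X} {q : P hD (oo F.y)}
    (hx : D.alive x)
    (hq : val q ∈ GG F.lab (n + 1) (Sum.inl x)) (hqt : val q ∈ Hom D (oo F.y) x)
    (hf : val (F.f q) ∈ BB (lab1 : I → Label X S) n) : val q ∈ BB F.lab n := by
  obtain ⟨q0, γ, c, h1, h2, h3, h4, h5, h6⟩ := decomp_E F.labOk hq hqt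
  have hc : c = 0 := by
    refine gen_part_zero H hqt (r := q0 + te D (oo F.y) x γ) ?_ h5 h6 hf
    intro j hj
    exact add_mem (BB_avoid_od hj h1) (te_Avoid (BB_avoid_od hj h3))
  rw [hc, add_zero] at h6
  let q0' := ofPM hD q0 (Hom_le _ h2)
  let γ' := ofPM hD γ (Off_le _ h4)
  have hγ' : val γ' = γ := rfl
  have h7 : q = q0' + e D x • γ' := by
    apply val_injective
    rw [map_add, val_e_smul, hγ']
    exact h6
  have h8 : F.f q = F.f q0' + e D x • F.f γ' := by
    rw [h7, map_add, map_smul]
  have h9 : val (F.f γ') ∈ Off D o x := f_Off F h4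
  have h10 : te D o x (val (F.f γ')) ∈ BB (lab1 : I → Label X S) n := by
    rw [← val_e_smul, show e D x • F.f γ' = F.f q - F.f q0' by rw [h8]; abel, map_sub]
    exact sub_mem hf (f_BB F h1)
  have h11 := K1_te hx (f_BB F (q := γ') h3) h9 h10
  have h12 : val (F.f γ') ∈ GG (lab1 : I → Label X S) n (Sum.inl x) := by
    rw [mem_GG]
    intro w hw
    have := h11 w hw
    exact ⟨this.le, fun h => by omega⟩
  have h13 := hI _ γ' h3 h12
  have h14 : ∀ w ∈ γ.support, dg F.lab w < n := by
    intro w hw
    have h15 := mem_GG.1 h13 w hw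
    refine lt_of_le_of_ne h15.1 (fun h16 => ?_)
    exact lt_ne_of_off F.labOk (mem_Off.1 h4 w hw).2 (h15.2 h16)
  rw [h6]
  exact add_mem h1 (te_lt h14)

/-- the case of an element at `z s` -/
lemma case_z (H : Setup C F) {n : ℕ} (hI : IH F n) {s : S} {q : P hD (oo F.y)}
    (hz : D.alive (D.z s))
    (hq : val q ∈ GG F.lab (n + 1) (Sum.inr s)) (hqt : val q ∈ Hom D (oo F.y) (D.z s))
    (hf : val (F.f q) ∈ BB (lab1 : I → Label X S) n) : val q ∈ BB F.lab n := by
  classical
  have hqb1 : ∀ b, val (dn D s b • q) ∈ GG F.lab (n + 1) (Sum.inr s) := by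
    intro b
    rw [val_dn_of_Hom hqt]
    exact ta_GG s b hq
  have hqb2 : ∀ b, val (dn D s b • q) ∈ Hom D (oo F.y) (D.x s b) := by
    intro b
    rw [val_dn_of_Hom hqt]
    exact ta_mem_Hom hD (val_mem _)
  have hdec := fun b => decomp_x hD F.labOk (hqb1 b) (hqb2 b)
  choose q0 γ c h1 h2 h3 h4 h5 h6 using hdec
  by_cases hcase : ∀ b : {b : Bool // D.alive (D.x s b)}, c b ≠ 0
  · exfalso
    have hjj := fun b : {b : Bool // D.alive (D.x s b)} => GenS_exists (h5 b) (hcase b)
    choose jj hjj1 hjj2 using hjj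
    have hr : ∀ b b' : {b : Bool // D.alive (D.x s b)},
        q0 b + ta D (oo F.y) s b (γ b) ∈ Avoid X S (jj b') := by
      intro b b'
      exact add_mem (BB_avoid_od (hjj1 b').1 (h1 b)) (ta_Avoid (BB_avoid_od (hjj1 b').1 (h3 b)))
    have hval : ∀ b : {b : Bool // D.alive (D.x s b)},
        val (dn D s b • q) (.gen (jj b)) = c b (.gen (jj b)) := by
      intro b
      rw [h6 b, Finsupp.add_apply, Avoid_gen (hr b b), zero_add]
    refine no_merge H.hC F H.hF H.hmin s n q hz hqt jj (fun b => (hjj1 b).1) ?_ ?_ ?_ hf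
    · intro b
      have := (hjj1 b).2
      simpa [oo] using this
    · intro b
      rw [hval]
      exact hjj2 b
    · intro b b'
      rw [val_rest, hval, h6 b, add_sub_assoc]
      refine add_mem (hr b b') ?_
      by_cases hb : b = b'
      · subst hb
        exact GenS_sub_single (h5 b) (jj b)
      · have hxx : D.x s b ≠ D.x s b' := by
          have h2 := hD.x_ne s
          intro h
          apply hb
          apply Subtype.ext
          rcases b with ⟨b, hb⟩
          rcases b' with ⟨b', hb'⟩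
          cases b <;> cases b' <;> simp_all
        refine sub_mem ?_ ?_
        · rw [mem_Avoid]
          intro w hw
          have h7 := h5 b
          rw [GenS, Finsupp.mem_supported] at h7
          obtain ⟨i, hi, rfl⟩ := h7 hw
          simp only [bs]
          rintro rfl
          have h8 := hi.2
          have h9 := (hjj1 b').2
          rw [h8] at h9
          simp only [Option.some.injEq] at h9
          exact hxx h9
        · refine single_mem_Avoid ?_ _
          simp only [bs]
          intro h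
          have h8 := (hjj1 b).2
          have h9 := (hjj1 b').2
          rw [← h, h8] at h9
          simp only [Option.some.injEq] at h9
          exact hxx h9
  · push Not at hcase
    obtain ⟨b1, hc⟩ := hcase
    have h6' := h6 b1
    rw [hc, add_zero] at h6'
    let q0' := ofPM hD (q0 b1) (Hom_le _ (h2 b1))
    let γ' := ofPM hD (γ b1) (Hom_le _ (h4 b1))
    have hγ' : val γ' = γ b1 := rfl
    have h7 : dn D s b1 • q = q0' + dn D s b1 • γ' := by
      apply val_injective
      rw [map_add, val_dn_of_Hom (p := γ') (h4 b1), hγ']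
      exact h6'
    -- `f (q - γ)` has low degree and good type
    have h8 : dn D s b1 • F.f (q - γ') = F.f q0' := by
      rw [map_sub, smul_sub, ← map_smul, ← map_smul, h7, map_add]
      abel
    have h9 : val (q - γ') ∈ Hom D (oo F.y) (D.z s) := by
      rw [map_sub]
      exact sub_mem hqt (h4 b1)
    have h10 : val (F.f (q - γ')) ∈ Hom D o (D.z s) := f_Hom F h9
    have h11 : val (F.f (q - γ')) ∈ BB (lab1 : I → Label X S) n := by
      rw [map_sub, map_sub]
      exact sub_mem hf (f_BB F (h3 b1))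
    have h12 : val (F.f (q - γ')) ∈ GG (lab1 : I → Label X S) n (Sum.inr s) := by
      refine K1_ta b1.2 h11 h10 ?_
      rw [← val_dn_of_Hom h10, h8]
      exact f_BB F (h1 b1)
    have h13 : ∀ b, val (dn D s b • (q - γ')) ∈ GG F.lab n (Sum.inr s) := by
      intro b
      by_cases hx : D.alive (D.x s b)
      swap
      · rw [dn_dead hx, zero_smul, map_zero]; exact zero_mem _
      have h14 : val (F.f (dn D s b • (q - γ'))) ∈ GG (lab1 : I → Label X S) n (Sum.inr s) := by
        rw [map_smul, val_dn_of_Hom h10]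
        exact ta_GG s b h12
      have h15 : val (dn D s b • (q - γ')) ∈ GG F.lab (n + 1) (Sum.inr s) := by
        rw [val_dn_of_Hom h9, map_sub]
        exact ta_GG s b (sub_mem hq (BB_le_GG (h3 b1)))
      have h16 : val (dn D s b • (q - γ')) ∈ Hom D (oo F.y) (D.x s b) := by
        rw [val_dn_of_Hom h9]
        exact ta_mem_Hom hD (val_mem _)
      exact hI _ _ (case_x H hI hx h15 h16 (GG_le_BB h14)) h14
    have h17 : val (q - γ') ∈ GG F.lab n (Sum.inr s) := by
      have h18 := tb_ta_add hD h9
      rw [← h18, ← val_dn_of_Hom h9, ← val_dn_of_Hom h9]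
      exact add_mem (tb_GG s false (h13 false)) (tb_GG s true (h13 true))
    have h19 : val q = val (q - γ') + γ b1 := by
      rw [map_sub, hγ']; abel
    rw [h19]
    exact add_mem (GG_le_BB h17) (h3 b1)

lemma case_all (H : Setup C F) {n : ℕ} (hI : IH F n) {t : X} {l : X ⊕ S} {q : P hD (oo F.y)}
    (hq : val q ∈ GG F.lab (n + 1) l) (hqt : val q ∈ Hom D (oo F.y) t)
    (hf : val (F.f q) ∈ BB (lab1 : I → Label X S) n) : val q ∈ BB F.lab n := by
  by_cases ht : D.alive t
  swap
  · have : val q = 0 := by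
      rw [← Finsupp.support_eq_empty, Finset.eq_empty_iff_forall_notMem]
      intro w hw
      have := mem_Hom.1 hqt w hw
      exact ht (alive_of_valid hD this.1 this.2)
    rw [this]
    exact zero_mem _
  by_cases h1 : Adm D t l
  · cases l with
    | inl x =>
      simp only [Adm] at h1
      subst h1
      exact case_E H hI ht hq hqt hf
    | inr s =>
      obtain ⟨b, hb, rfl⟩ := h1
      exact case_x H hI hb hq hqt hf
  · by_cases h2 : ∃ s, l = Sum.inr s ∧ t = D.z s
    · obtain ⟨s, rfl, rfl⟩ := h2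
      exact case_z H hI ht hq hqt hf
    · push Not at h2
      exact GG_off F.labOk hq hqt h1 (fun s hs => h2 s hs)

/-- generators with top label do not occur -/
lemma no_top_gen (H : Setup C F) {n : ℕ} {t : X} {l : X ⊕ S} {q : P hD (oo F.y)}
    (hq : val q ∈ BB F.lab (n + 1)) (hqt : val q ∈ Hom D (oo F.y) t)
    (hf : val (F.f q) ∈ GG (lab1 : I → Label X S) (n + 1) l) (j : J)
    (hj : F.lab j = .ev (n + 1)) : val q (.gen j) = 0 := by
  classical
  by_contra hc
  have h1 : (W.gen j : W X S J) ∈ (val q).support := Finsupp.mem_support_iff.2 hc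
  have h2 : F.y j = t := by
    have := (mem_Hom.1 hqt _ h1).2
    simpa [ob, oo] using this
  subst h2
  have hav : val q - single (.gen j) (val q (.gen j)) ∈ Avoid X S j := by
    rw [mem_Avoid]
    rintro w hw rfl
    rw [Finsupp.mem_support_iff, Finsupp.sub_apply, Finsupp.single_apply] at hw
    rcases dg_gt_of_ev w hj with h3 | h3
    · rw [if_pos h3.symm, ← h3, sub_self] at hw
      exact hw rfl
    · rw [if_neg, sub_zero] at hw
      · have h4 := mem_BB.1 hq w (Finsupp.mem_support_iff.2 hw)
        omega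
      · intro h5
        have h6 : dg F.lab w = n + 1 := by
          rw [← h5]; simp only [dg, hj]
        omega
  by_cases ha : Adm D (F.y j) l
  · refine no_trans H.hC F H.hF H.hmin j q hqt hc hav (.od n l) ⟨hf, ha⟩ ?_
    rw [hj]
    have := om_od_lt_ev n l
    omega
  · by_cases h2 : ∃ s, l = Sum.inr s ∧ F.y j = D.z s
    · obtain ⟨s, rfl, hs⟩ := h2
      exact no_split H.hC F H.hF H.hmin j q s n hs hj hqt hc hav hf
    · push Not at h2
      have h3 := GG_off labOk_lab1 hf (f_Hom F hqt) ha (fun s hs => h2 s hs)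
      refine no_trans H.hC F H.hF H.hmin j q hqt hc hav (.ev n) h3 ?_
      rw [hj]
      have := om_od_lt_ev n l
      have := om_ev_lt_od n l
      omega

open Classical in
/-- Top words of a given type do not occur if they do not occur in the image. -/
lemma no_top_type (H : Setup C F) {n : ℕ} (hI : IH F n) {t : X} {l μ : X ⊕ S}
    {q : P hD (oo F.y)}
    (hq : val q ∈ BB F.lab (n + 1)) (hqt : val q ∈ Hom D (oo F.y) t)
    (hf : val (F.f q) ∈ GG (lab1 : I → Label X S) (n + 1) l)
    (hμ : val (F.f q) ∈ NG (lab1 : I → Label X S) (n + 1) μ) :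
    ∀ w ∈ (val q).support, dg F.lab w = n + 1 → lt F.lab w ≠ some μ := by
  have hgen := no_top_gen H hq hqt hf
  let pr : W X S J → Prop := fun w => dg F.lab w = n + 1 ∧ lt F.lab w = some μ
  have hPM : (val q).filter pr ∈ PM D (oo F.y) := by
    rw [mem_PM]
    intro w hw
    rw [Finsupp.support_filter, Finset.mem_filter] at hw
    exact mem_PM.1 (val_mem q) w hw.1
  let qμ : P hD (oo F.y) := ofPM hD _ hPM
  have hqμ : val qμ = (val q).filter pr := rfl
  have h1 : val qμ ∈ Hom D (oo F.y) t := by
    rw [mem_Hom]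
    intro w hw
    rw [hqμ, Finsupp.support_filter, Finset.mem_filter] at hw
    exact mem_Hom.1 hqt w hw.1
  have h2 : val qμ ∈ GG F.lab (n + 1) μ := by
    rw [mem_GG]
    intro w hw
    rw [hqμ, Finsupp.support_filter, Finset.mem_filter] at hw
    exact ⟨hw.2.1.le, fun _ => hw.2.2⟩
  have h3 : val (F.f qμ) ∈ GG (lab1 : I → Label X S) (n + 1) μ := by
    refine f_supported F (T := {w | dg F.lab w = n + 1 ∧ lt F.lab w = some μ}) ?_ ?_
    · intro w hw hv
      rw [← hw.1]
      exact (evW_filt F hv).2 μ hw.2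
    · intro w hw
      rw [hqμ, Finsupp.support_filter, Finset.mem_filter] at hw
      exact hw.2
  have h4 : val (F.f (q - qμ)) ∈ NG (lab1 : I → Label X S) (n + 1) μ := by
    refine f_supported F
      (T := {w | dg F.lab w ≤ n ∨ (dg F.lab w = n + 1 ∧ ∃ ν, ν ≠ μ ∧ lt F.lab w = some ν)}) ?_ ?_
    · rintro w (hw | ⟨hw, ν, hν, hw'⟩) hv
      · exact BB_le_NG (BB_mono hw (evW_filt F hv).1)
      · refine GG_le_NG hν ?_
        rw [← hw]
        exact (evW_filt F hv).2 ν hw'
    · intro w hw
      rw [map_sub, hqμ, Finsupp.mem_support_iff, Finsupp.sub_apply, Finsupp.filter_apply] at hw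
      by_cases hpr : pr w
      · rw [if_pos hpr, sub_self] at hw
        exact absurd rfl hw
      · rw [if_neg hpr, sub_zero] at hw
        have hw' := Finsupp.mem_support_iff.2 hw
        have h5 := mem_BB.1 hq w hw'
        rcases Nat.lt_or_ge n (dg F.lab w) with h6 | h6
        · right
          have h7 : dg F.lab w = n + 1 := by omega
          refine ⟨h7, ?_⟩
          cases hlt : lt F.lab w with
          | some ν =>
            refine ⟨ν, ?_, rfl⟩
            rintro rfl
            exact hpr ⟨h7, hlt⟩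
          | none =>
            exfalso
            cases w with
            | gen j =>
              apply hw
              apply hgen
              simp only [lt] at hlt
              simp only [dg] at h7
              cases hl : F.lab j with
              | ev m => rw [hl] at h7; simp only at h7; rw [h7]
              | od m l => rw [hl] at hlt; simp at hlt
            | E x w => simp [lt] at hlt
            | A s b w => simp [lt] at hlt
            | B s b w => simp [lt] at hlt
            | C s w => simp [lt] at hlt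
        · left; exact h6
  have h5 : val (F.f qμ) ∈ NG (lab1 : I → Label X S) (n + 1) μ := by
    have h6 : val (F.f qμ) = val (F.f q) - val (F.f (q - qμ)) := by
      rw [map_sub F.f, map_sub]; abel
    rw [h6]
    exact sub_mem hμ h4
  have h6 := case_all H hI h2 h1 (GG_inf_NG h3 h5)
  intro w hw hn hl
  have h7 : w ∈ (val qμ).support := by
    rw [hqμ, Finsupp.support_filter, Finset.mem_filter]
    exact ⟨hw, hn, hl⟩
  have h8 := mem_BB.1 h6 w h7
  omega

lemma step_b_hom (H : Setup C F) {n : ℕ} (hI : IH F n) {t : X} {l : X ⊕ S}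
    {q : P hD (oo F.y)}
    (hq : val q ∈ BB F.lab (n + 1)) (hqt : val q ∈ Hom D (oo F.y) t)
    (hf : val (F.f q) ∈ GG (lab1 : I → Label X S) (n + 1) l) : val q ∈ GG F.lab (n + 1) l := by
  rw [mem_GG]
  intro w hw
  refine ⟨mem_BB.1 hq w hw, fun hn => ?_⟩
  have hgen := no_top_gen H hq hqt hf
  cases hlt : lt F.lab w with
  | some μ =>
    by_contra hne
    have hne' : l ≠ μ := by rintro rfl; exact hne rfl
    exact no_top_type H hI hq hqt hf (GG_le_NG hne' hf) w hw hn hlt
  | none =>
    exfalso
    cases w with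
    | gen j =>
      apply Finsupp.mem_support_iff.1 hw
      apply hgen
      simp only [lt] at hlt
      simp only [dg] at hn
      cases hl : F.lab j with
      | ev m => rw [hl] at hn; simp only at hn; rw [hn]
      | od m l => rw [hl] at hlt; simp at hlt
    | E x w => simp [lt] at hlt
    | A s b w => simp [lt] at hlt
    | B s b w => simp [lt] at hlt
    | C s w => simp [lt] at hlt

lemma step_a_hom (H : Setup C F) {n : ℕ} (hI : IH F n) {t : X}
    {q : P hD (oo F.y)}
    (hq : val q ∈ BB F.lab (n + 1)) (hqt : val q ∈ Hom D (oo F.y) t)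
    (hf : val (F.f q) ∈ BB (lab1 : I → Label X S) n) : val q ∈ BB F.lab n := by
  have hf' : val (F.f q) ∈ GG (lab1 : I → Label X S) (n + 1) (Sum.inl t) := BB_le_GG hf
  have h1 := step_b_hom H hI hq hqt hf'
  have h2 : val q ∈ NG F.lab (n + 1) (Sum.inl t) := by
    rw [mem_NG]
    intro w hw
    exact ⟨mem_BB.1 hq w hw, no_top_type H hI hq hqt hf' (BB_le_NG hf) w hw⟩
  exact GG_inf_NG h1 h2

open Classical in
/-- Reduction to homogeneous elements. -/
lemma hom_components (F : LF hD o J) (q : P hD (oo F.y)) (t : X) :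
    ∃ qt : P hD (oo F.y), val qt ∈ Hom D (oo F.y) t ∧
      (∀ w, ob D (oo F.y) w = some t → val qt w = val q w) ∧
      (∀ w ∈ (val qt).support, w ∈ (val q).support) ∧
      ∀ w ∈ (val (F.f qt)).support, w ∈ (val (F.f q)).support := by
  let pr : W X S J → Prop := fun w => ob D (oo F.y) w = some t
  have hPM : (val q).filter pr ∈ PM D (oo F.y) := by
    rw [mem_PM]
    intro w hw
    rw [Finsupp.support_filter, Finset.mem_filter] at hw
    exact mem_PM.1 (val_mem q) w hw.1
  let qt : P hD (oo F.y) := ofPM hD _ hPM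
  have hqt : val qt = (val q).filter pr := rfl
  have h1 : val qt ∈ Hom D (oo F.y) t := by
    rw [mem_Hom]
    intro w hw
    have hv := mem_PM.1 (val_mem qt) w hw
    rw [hqt, Finsupp.support_filter, Finset.mem_filter] at hw
    exact ⟨hv, hw.2⟩
  have h2 : val (q - qt) ∈ Off D (oo F.y) t := by
    rw [mem_Off]
    intro w hw
    refine ⟨mem_PM.1 (val_mem _) w hw, ?_⟩
    rw [map_sub, hqt, Finsupp.mem_support_iff, Finsupp.sub_apply, Finsupp.filter_apply] at hw
    intro h
    rw [if_pos h, sub_self] at hw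
    exact hw rfl
  refine ⟨qt, h1, ?_, ?_, ?_⟩
  · intro w hw
    rw [hqt, Finsupp.filter_apply, if_pos hw]
  · intro w hw
    rw [hqt, Finsupp.support_filter, Finset.mem_filter] at hw
    exact hw.1
  · intro w hw
    have h3 := (mem_Hom.1 (f_Hom F h1) w hw).2
    have h4 : val (F.f (q - qt)) w = 0 := by
      by_contra h
      exact (mem_Off.1 (f_Off F h2) w (Finsupp.mem_support_iff.2 h)).2 h3
    rw [map_sub, map_sub, Finsupp.sub_apply, sub_eq_zero] at h4
    rw [Finsupp.mem_support_iff, h4]
    exact Finsupp.mem_support_iff.1 hw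

lemma step_b (H : Setup C F) {n : ℕ} (hI : IH F n) : IH F (n + 1) := by
  intro l q hq hf
  rw [mem_GG]
  intro w hw
  obtain ⟨t, ht⟩ := ob_oo (D := D) (y := F.y) w
  obtain ⟨qt, h1, h2, h3, h4⟩ := hom_components F q t
  have h5 : val qt ∈ GG F.lab (n + 1) l := by
    refine step_b_hom H hI ?_ h1 ?_
    · rw [mem_BB]; exact fun w hw => mem_BB.1 hq w (h3 w hw)
    · rw [mem_GG]; exact fun w hw => mem_GG.1 hf w (h4 w hw)
  refine mem_GG.1 h5 w ?_
  rw [Finsupp.mem_support_iff, h2 w ht]
  exact Finsupp.mem_support_iff.1 hw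

lemma dg_pos (H : Setup C F) (w : W X S J) : 1 ≤ dg F.lab w := by
  refine le_trans ?_ (dg_gen_le_dg F.lab w)
  have := H.hne (bs w)
  simp only [dg]
  cases hl : F.lab (bs w) with
  | ev n =>
    simp only
    rcases Nat.eq_zero_or_pos n with rfl | h
    · exact absurd hl this
    · exact h
  | od n l => simp

lemma IH_all (H : Setup C F) (n : ℕ) : IH F n := by
  induction n with
  | zero =>
    intro l q hq _
    rw [mem_GG]
    intro w hw
    have h1 := mem_BB.1 hq w hw
    have h2 := dg_pos H w
    omega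
  | succ n ih => exact step_b H ih

/-- The key property of families of minimal weight. -/
theorem key_a (H : Setup C F) {n : ℕ} {q : P hD (oo F.y)} (hq : val q ∈ BB F.lab (n + 1))
    (hf : val (F.f q) ∈ BB (lab1 : I → Label X S) n) : val q ∈ BB F.lab n := by
  rw [mem_BB]
  intro w hw
  obtain ⟨t, ht⟩ := ob_oo (D := D) (y := F.y) w
  obtain ⟨qt, h1, h2, h3, h4⟩ := hom_components F q t
  have h5 : val qt ∈ BB F.lab n := by
    refine step_a_hom H (IH_all H n) ?_ h1 ?_
    · rw [mem_BB]; exact fun w hw => mem_BB.1 hq w (h3 w hw)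
    · rw [mem_BB]; exact fun w hw => mem_BB.1 hf w (h4 w hw)
  refine mem_BB.1 h5 w ?_
  rw [Finsupp.mem_support_iff, h2 w ht]
  exact Finsupp.mem_support_iff.1 hw

lemma exists_BB {I' : Type} (lab : I' → Label X S) (p : W X S I' →₀ ℚ) :
    ∃ n, p ∈ BB lab n := by
  refine ⟨p.support.sup (dg lab), ?_⟩
  rw [mem_BB]
  intro w hw
  exact Finset.le_sup (f := dg lab) hw

theorem key_deg (H : Setup C F) {n : ℕ} {q : P hD (oo F.y)}
    (hf : val (F.f q) ∈ BB (lab1 : I → Label X S) n) : val q ∈ BB F.lab n := by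
  obtain ⟨m, hm⟩ := exists_BB F.lab (val q)
  have key : ∀ k, val q ∈ BB F.lab (n + k) → val q ∈ BB F.lab n := by
    intro k
    induction k with
    | zero => exact id
    | succ k ih =>
      intro h
      exact ih (key_a H h (BB_mono (by omega) hf))
  rcases Nat.le_total m n with h | h
  · exact BB_mono h hm
  · obtain ⟨k, rfl⟩ := Nat.exists_eq_add_of_le h
    exact key k hm

theorem key_inj (H : Setup C F) {q : P hD (oo F.y)} (hf : F.f q = 0) : q = 0 := by
  have h1 : val q ∈ BB F.lab 0 := by
    refine key_deg H ?_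
    rw [hf, map_zero]
    exact zero_mem _
  apply val_injective
  rw [map_zero, ← Finsupp.support_eq_empty, Finset.eq_empty_iff_forall_notMem]
  intro w hw
  have h2 := mem_BB.1 h1 w hw
  have h3 := dg_pos H w
  omega

end main

end Pool.Agent.Lib_helper33.Berg
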