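import Pool.Agent.Lib_helper33.BergWords

/-!
# The word modules as modules over the algebra, and their universal property
-/

universe u

set_option linter.unusedSectionVars false

namespace Pool.Agent.Lib_helper33.Berg

open Finsupp

variable {X S : Type u} {I : Type} {D : Data X S}

/-- The action of the algebra on the space of reduced words. -/
noncomputable def rho (hD : D.Good) (o : I → Option X) : Alg D →ₐ[ℚ] Module.End ℚ (PM D o) :=
  lift (opM hD o) (respects_opM hD o)

/-- The word module on generators `I` placed at the objects `o`. -/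
def P (_ : D.Good) (o : I → Option X) : Type u := PM D o

variable (hD : D.Good) (o : I → Option X)

noncomputable instance : AddCommGroup (P hD o) := inferInstanceAs (AddCommGroup (PM D o))
noncomputable instance : Module ℚ (P hD o) := inferInstanceAs (Module ℚ (PM D o))

noncomputable instance : Module (Alg D) (P hD o) where
  smul a p := (rho hD o a : Module.End ℚ (PM D o)) p
  one_smul p := by
    change (rho hD o 1 : Module.End ℚ (PM D o)) p = p
    rw [map_one]; rfl
  mul_smul a b p := by
    change (rho hD o (a * b) : Module.End ℚ (PM D o)) p = _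
    rw [map_mul]; rfl
  smul_zero a := map_zero (rho hD o a : Module.End ℚ (PM D o))
  smul_add a p q := map_add (rho hD o a : Module.End ℚ (PM D o)) p q
  add_smul a b p := by
    change (rho hD o (a + b) : Module.End ℚ (PM D o)) p = _
    rw [map_add]; rfl
  zero_smul p := by
    change (rho hD o 0 : Module.End ℚ (PM D o)) p = _
    rw [map_zero]; rfl

instance : IsScalarTower ℚ (Alg D) (P hD o) where
  smul_assoc c a p := by
    change (rho hD o (c • a) : Module.End ℚ (PM D o)) p = c • ((rho hD o a : Module.End ℚ (PM D o)) p)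
    rw [map_smul]; rfl

variable {hD o}

/-- The underlying combination of words. -/
noncomputable def val : P hD o →ₗ[ℚ] (W X S I →₀ ℚ) := (PM D o).subtype

lemma val_injective : Function.Injective (val : P hD o →ₗ[ℚ] (W X S I →₀ ℚ)) :=
  Subtype.val_injective

lemma val_mem (p : P hD o) : val p ∈ PM D o := p.2

@[simp] lemma val_g_smul (a : Gen X S) (p : P hD o) : val (g D a • p) = op D o a (val p) := by
  change ((rho hD o (g D a) : Module.End ℚ (PM D o)) p : W X S I →₀ ℚ) = _
  unfold rho
  rw [lift_g]
  rfl

lemma val_e_smul (x : X) (p : P hD o) : val (e D x • p) = te D o x (val p) :=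
  val_g_smul _ _

lemma val_dn_smul (s : S) (b : Bool) (p : P hD o) :
    val (dn D s b • p) = ta D o s b (te D o (D.z s) (val p)) :=
  val_g_smul _ _

lemma val_up_smul (s : S) (b : Bool) (p : P hD o) :
    val (up D s b • p) = tb D o s b (te D o (D.x s b) (val p)) :=
  val_g_smul _ _

lemma algebraMap_smul_P (c : ℚ) (p : P hD o) : algebraMap ℚ (Alg D) c • p = c • p := by
  rw [algebraMap_smul]

/-- The basis element attached to a reduced word. -/
noncomputable def wd (w : W X S I) (h : Valid D o w) : P hD o := ⟨single w 1, single_mem_PM h 1⟩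

@[simp] lemma val_wd (w : W X S I) (h : Valid D o w) : val (wd w h : P hD o) = single w 1 := rfl

/-- Generators at dead objects are excluded. -/
def Ok (D : Data X S) (o : I → Option X) : Prop := ∀ i x, o i = some x → D.alive x

/-- The generators. -/
noncomputable def gen (ho : Ok D o) (i : I) : P hD o := wd (.gen i) (ho i)

lemma e_smul_wd {x : X} {w : W X S I} (h : Valid D o (.E x w)) :
    e D x • (wd w h.2.2 : P hD o) = wd (.E x w) h := by
  apply val_injective
  rw [val_e_smul, val_wd, val_wd, te_of_ne h.1 h.2.1]

lemma dn_smul_wd {s : S} {b : Bool} {w : W X S I} (h : Valid D o (.A s b w)) :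
    dn D s b • (wd w h.2.2.2 : P hD o) = wd (.A s b w) h := by
  apply val_injective
  rw [val_dn_smul, val_wd, val_wd, te_of_ob (alive_of_valid hD h.2.2.2 h.2.1) h.2.1,
    ta_new h.1 h.2.1 h.2.2.1]

lemma up_smul_wd {s : S} {b : Bool} {w : W X S I} (h : Valid D o (.B s b w)) :
    up D s b • (wd w h.2.2.2 : P hD o) = wd (.B s b w) h := by
  apply val_injective
  rw [val_up_smul, val_wd, val_wd, te_of_ob h.1 h.2.1, tb_new h.1 h.2.1 h.2.2.1]

lemma up_dn_smul_wd {s : S} {w : W X S I} (h : Valid D o (.C s w)) :
    up D s false • dn D s false • (wd w h.2.2.2.2 : P hD o) = wd (.C s w) h := by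
  apply val_injective
  rw [val_up_smul, val_dn_smul, val_wd, val_wd,
    te_of_ob (alive_of_valid hD h.2.2.2.2 h.2.2.1) h.2.2.1,
    ta_new h.1 h.2.2.1 h.2.2.2.1, te_of_ob h.1 rfl, tb_A_false h.1 h.2.1]

/-- Induction on elements of a word module. -/
lemma P_induction {C : P hD o → Prop} (h0 : C 0) (hadd : ∀ p q, C p → C q → C (p + q))
    (hs : ∀ (c : ℚ) p, C p → C (c • p)) (h : ∀ w (hw : Valid D o w), C (wd w hw)) (p : P hD o) :
    C p := by
  have key : ∀ q : W X S I →₀ ℚ, q ∈ PM D o → ∃ p : P hD o, val p = q ∧ C p := by
    intro q hq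
    refine PM_induction (C := fun q => ∃ p : P hD o, val p = q ∧ C p) ?_ ?_ ?_ ?_ hq
    · exact ⟨0, map_zero _, h0⟩
    · rintro _ _ ⟨p, rfl, hp⟩ ⟨q, rfl, hq⟩
      exact ⟨p + q, map_add _ _ _, hadd _ _ hp hq⟩
    · rintro c _ ⟨p, rfl, hp⟩
      exact ⟨c • p, map_smul _ _ _, hs _ _ hp⟩
    · intro w hw
      exact ⟨wd w hw, rfl, h w hw⟩
  obtain ⟨p', hp', hC⟩ := key (val p) (val_mem p)
  rwa [val_injective hp'] at hC

section ev

variable {N : Type*} [AddCommGroup N] [Module (Alg D) N] [Module ℚ N] [IsScalarTower ℚ (Alg D) N]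

/-- Evaluation of words. -/
noncomputable def evW (D : Data X S) {N : Type*} [AddCommGroup N] [Module (Alg D) N]
    (v : I → N) : W X S I → N
  | .gen i => v i
  | .E x w => e D x • evW D v w
  | .A s b w => dn D s b • evW D v w
  | .B s b w => up D s b • evW D v w
  | .C s w => up D s false • dn D s false • evW D v w

/-- Linear extension of `evW`. -/
noncomputable def evR (D : Data X S) {N : Type*} [AddCommGroup N] [Module (Alg D) N] [Module ℚ N]
    (v : I → N) : (W X S I →₀ ℚ) →ₗ[ℚ] N := Finsupp.linearCombination ℚ (evW D v)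

@[simp] lemma evR_single (v : I → N) (w : W X S I) : evR D v (single w 1) = evW D v w := by
  simp [evR]

lemma evW_ob (v : I → N) (hv : ∀ i x, o i = some x → e D x • v i = v i) {w : W X S I}
    {t : X} (ht : ob D o w = some t) : e D t • evW D v w = evW D v w := by
  cases w with
  | gen i => exact hv i t ht
  | E x w =>
    simp only [ob, Option.some.injEq] at ht; subst ht
    simp only [evW, smul_smul, e_idem]
  | A s b w =>
    simp only [ob, Option.some.injEq] at ht; subst ht
    simp only [evW, smul_smul, e_mul_dn]
  | B s b w =>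
    simp only [ob, Option.some.injEq] at ht; subst ht
    simp only [evW, smul_smul, e_mul_up]
  | C s w =>
    simp only [ob, Option.some.injEq] at ht; subst ht
    simp only [evW]
    rw [smul_smul, e_mul_up]

lemma dn_dead {s : S} {b : Bool} (h : ¬ D.alive (D.x s b)) : dn D s b = 0 := by
  rw [← e_mul_dn, e_dead h, zero_mul]

lemma up_dead {s : S} {b : Bool} (h : ¬ D.alive (D.x s b)) : up D s b = 0 := by
  rw [← up_mul_e, e_dead h, mul_zero]

lemma evR_te (v : I → N) (hv : ∀ i x, o i = some x → e D x • v i = v i) (x : X) (w : W X S I) :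
    evR D v (te D o x (single w 1)) = e D x • evW D v w := by
  by_cases hx : D.alive x
  · by_cases h : ob D o w = some x
    · rw [te_of_ob hx h, evR_single, evW_ob v hv h]
    · rw [te_of_ne hx h, evR_single]; rfl
  · rw [te_of_dead hx, map_zero, e_dead hx, zero_smul]

lemma evR_ta (hD : D.Good) (v : I → N) (hv : ∀ i x, o i = some x → e D x • v i = v i) (s : S)
    (b : Bool) {w : W X S I} (hw : Valid D o w) (h : ob D o w = some (D.z s)) :
    evR D v (ta D o s b (single w 1)) = dn D s b • evW D v w := by
  by_cases hx : D.alive (D.x s b)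
  swap
  · rw [ta_of_dead hx, map_zero, dn_dead hx, zero_smul]
  by_cases ht : ty w = some (Sum.inr s)
  swap
  · rw [ta_new hx h ht, evR_single]; rfl
  cases w with
  | gen i => simp [ty] at ht
  | E x w => simp [ty] at ht
  | A s' b' w =>
    simp only [ty, Option.some.injEq, Sum.inr.injEq] at ht
    subst ht
    simp only [ob, Option.some.injEq] at h
    exact absurd h.symm (hD.z_ne _ _)
  | B s' b' w =>
    simp only [ty, Option.some.injEq, Sum.inr.injEq] at ht
    subst ht
    rw [ta_B hx]
    by_cases hb : b' = b
    · subst hb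
      rw [if_pos rfl, evR_single]
      simp only [evW]
      rw [smul_smul, dn_mul_up, evW_ob v hv hw.2.1]
    · rw [if_neg hb, map_zero]
      simp only [evW]
      have hb' : b' = !b := by cases b <;> cases b' <;> simp_all
      rw [hb', smul_smul, dn_mul_up', zero_smul]
  | C s' w =>
    simp only [ty, Option.some.injEq, Sum.inr.injEq] at ht
    subst ht
    rw [ta_C hx]
    by_cases hb : b = false
    · subst hb
      rw [if_pos rfl, evR_single]
      simp only [evW]
      rw [smul_smul (dn D s' false) (up D s' false), dn_mul_up, smul_smul, e_mul_dn]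
    · rw [if_neg hb, map_zero]
      have hb' : b = true := by simpa using hb
      subst hb'
      simp only [evW]
      rw [smul_smul (dn D s' true) (up D s' false)]
      have := dn_mul_up' (D := D) s' true
      simp only [Bool.not_true] at this
      rw [this, zero_smul]

lemma evR_tb (hD : D.Good) (v : I → N) (hv : ∀ i x, o i = some x → e D x • v i = v i) (s : S)
    (b : Bool) {w : W X S I} (hw : Valid D o w) (h : ob D o w = some (D.x s b)) :
    evR D v (tb D o s b (single w 1)) = up D s b • evW D v w := by
  by_cases hx : D.alive (D.x s b)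
  swap
  · rw [tb_of_dead hx, map_zero, up_dead hx, zero_smul]
  by_cases ht : ty w = some (Sum.inr s)
  swap
  · rw [tb_new hx h ht, evR_single]; rfl
  cases w with
  | gen i => simp [ty] at ht
  | E x w => simp [ty] at ht
  | A s' b' w =>
    simp only [ty, Option.some.injEq, Sum.inr.injEq] at ht
    subst ht
    simp only [ob, Option.some.injEq] at h
    have hb : b' = b := by
      have := hD.x_ne s'
      cases b <;> cases b' <;> simp_all
    subst hb
    have hz := hw.2.1
    have hsum := up_mul_dn_add (D := D) s'
    by_cases hx' : D.alive (D.x s' (!b'))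
    · cases b'
      · rw [tb_A_false hx hx', evR_single]; rfl
      · rw [tb_A_true hx' hx, map_sub, evR_single, evR_single]
        simp only [evW]
        have h2 : up D s' true * dn D s' true = e D (D.z s') - up D s' false * dn D s' false := by
          rw [← hsum]; abel
        rw [smul_smul, smul_smul, h2, sub_smul, evW_ob v hv hz]
    · rw [tb_A_one hx hx', evR_single]
      simp only [evW]
      rw [smul_smul]
      cases b'
      · simp only [Bool.not_false] at hx'
        rw [dn_dead hx', mul_zero, add_zero] at hsum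
        rw [hsum, evW_ob v hv hz]
      · simp only [Bool.not_true] at hx'
        rw [dn_dead hx', mul_zero, zero_add] at hsum
        rw [hsum, evW_ob v hv hz]
  | B s' b' w =>
    simp only [ty, Option.some.injEq, Sum.inr.injEq] at ht
    subst ht
    simp only [ob, Option.some.injEq] at h
    exact absurd h (hD.z_ne _ _)
  | C s' w =>
    simp only [ty, Option.some.injEq, Sum.inr.injEq] at ht
    subst ht
    simp only [ob, Option.some.injEq] at h
    exact absurd h (hD.z_ne _ _)

lemma rat_smul_comm (a : Alg D) (c : ℚ) (n : N) : a • c • n = c • a • n := by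
  rw [← algebraMap_smul (Alg D) c n, smul_smul, ← Algebra.commutes, ← smul_smul, algebraMap_smul]

lemma evR_te' (v : I → N) (hv : ∀ i x, o i = some x → e D x • v i = v i) (x : X)
    {p : W X S I →₀ ℚ} (hp : p ∈ PM D o) :
    evR D v (te D o x p) = e D x • evR D v p := by
  refine PM_induction (C := fun p => evR D v (te D o x p) = e D x • evR D v p) ?_ ?_ ?_ ?_ hp
  · simp
  · intro p q hp hq; simp only [map_add, smul_add, hp, hq]
  · intro c p hp; simp only [map_smul, hp, rat_smul_comm]
  · intro w _; rw [evR_te v hv, evR_single]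

lemma evR_ta' (hD : D.Good) (v : I → N) (hv : ∀ i x, o i = some x → e D x • v i = v i) (s : S)
    (b : Bool) {p : W X S I →₀ ℚ} (hp : p ∈ Hom D o (D.z s)) :
    evR D v (ta D o s b p) = dn D s b • evR D v p := by
  refine Hom_induction (C := fun p => evR D v (ta D o s b p) = dn D s b • evR D v p) ?_ ?_ ?_ ?_ hp
  · simp
  · intro p q hp hq; simp only [map_add, smul_add, hp, hq]
  · intro c p hp; simp only [map_smul, hp, rat_smul_comm]
  · intro w hw h; rw [evR_ta hD v hv s b hw h, evR_single]

lemma evR_tb' (hD : D.Good) (v : I → N) (hv : ∀ i x, o i = some x → e D x • v i = v i) (s : S)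
    (b : Bool) {p : W X S I →₀ ℚ} (hp : p ∈ Hom D o (D.x s b)) :
    evR D v (tb D o s b p) = up D s b • evR D v p := by
  refine Hom_induction (C := fun p => evR D v (tb D o s b p) = up D s b • evR D v p) ?_ ?_ ?_ ?_ hp
  · simp
  · intro p q hp hq; simp only [map_add, smul_add, hp, hq]
  · intro c p hp; simp only [map_smul, hp, rat_smul_comm]
  · intro w hw h; rw [evR_tb hD v hv s b hw h, evR_single]

lemma evR_op (hD : D.Good) (v : I → N) (hv : ∀ i x, o i = some x → e D x • v i = v i)
    (a : Gen X S) {p : W X S I →₀ ℚ} (hp : p ∈ PM D o) :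
    evR D v (op D o a p) = g D a • evR D v p := by
  cases a with
  | e x => exact evR_te' v hv x hp
  | dn s b =>
    change evR D v (ta D o s b (te D o (D.z s) p)) = dn D s b • evR D v p
    rw [evR_ta' hD v hv s b (te_mem_Hom hp), evR_te' v hv _ hp, smul_smul, dn_mul_e]
  | up s b =>
    change evR D v (tb D o s b (te D o (D.x s b) p)) = up D s b • evR D v p
    rw [evR_tb' hD v hv s b (te_mem_Hom hp), evR_te' v hv _ hp, smul_smul, up_mul_e]

/-- The universal property of word modules. -/
noncomputable def ev (v : I → N) (hv : ∀ i x, o i = some x → e D x • v i = v i) :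
    P hD o →ₗ[Alg D] N where
  toFun p := evR D v (val p)
  map_add' p q := by rw [map_add, map_add]
  map_smul' a p := by
    simp only [RingHom.id_apply]
    induction a using Alg.induction generalizing p with
    | h1 c => rw [algebraMap_smul_P, map_smul, map_smul, algebraMap_smul]
    | hg a => rw [val_g_smul, evR_op hD v hv a (val_mem p)]
    | hmul a b ha hb => rw [← smul_smul, ha, hb, smul_smul]
    | hadd a b ha hb => rw [add_smul, map_add, map_add, ha, hb, add_smul]

lemma ev_apply (v : I → N) (hv : ∀ i x, o i = some x → e D x • v i = v i) (p : P hD o) :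
    ev v hv p = evR D v (val p) := rfl

@[simp] lemma ev_wd (v : I → N) (hv : ∀ i x, o i = some x → e D x • v i = v i) (w : W X S I)
    (hw : Valid D o w) : ev v hv (wd w hw : P hD o) = evW D v w := by
  rw [ev_apply, val_wd, evR_single]

@[simp] lemma ev_gen (ho : Ok D o) (v : I → N) (hv : ∀ i x, o i = some x → e D x • v i = v i)
    (i : I) : ev v hv (gen ho i : P hD o) = v i := ev_wd _ _ _ _

lemma map_rat_smul {N' : Type*} [AddCommGroup N'] [Module (Alg D) N'] [Module ℚ N']
    [IsScalarTower ℚ (Alg D) N'] (f : N' →ₗ[Alg D] N) (c : ℚ) (n : N') : f (c • n) = c • f n := by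
  rw [← algebraMap_smul (Alg D) c n, map_smul, algebraMap_smul]

omit [Module ℚ N] [IsScalarTower ℚ (Alg D) N] in
/-- Every basis element is a multiple of a generator. -/
lemma wd_mem_span (ho : Ok D o) (w : W X S I) (hw : Valid D o w) :
    (wd w hw : P hD o) ∈ Submodule.span (Alg D) (Set.range (gen ho : I → P hD o)) := by
  induction w with
  | gen i => exact Submodule.subset_span ⟨i, rfl⟩
  | E x w ih => rw [← e_smul_wd hw]; exact Submodule.smul_mem _ _ (ih _)
  | A s b w ih => rw [← dn_smul_wd hw]; exact Submodule.smul_mem _ _ (ih _)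
  | B s b w ih => rw [← up_smul_wd hw]; exact Submodule.smul_mem _ _ (ih _)
  | C s w ih =>
    rw [← up_dn_smul_wd hw]
    exact Submodule.smul_mem _ _ (Submodule.smul_mem _ _ (ih _))

lemma span_gen (ho : Ok D o) :
    Submodule.span (Alg D) (Set.range (gen ho : I → P hD o)) = ⊤ := by
  rw [eq_top_iff]
  rintro p -
  refine P_induction (C := fun p => p ∈ Submodule.span (Alg D) (Set.range (gen ho : I → P hD o)))
    (zero_mem _) (fun p q hp hq => add_mem hp hq) ?_ (wd_mem_span ho) p
  intro c p hp
  rw [← algebraMap_smul_P]
  exact Submodule.smul_mem _ _ hp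

lemma P_ext (ho : Ok D o) {f f' : P hD o →ₗ[Alg D] N} (h : ∀ i, f (gen ho i) = f' (gen ho i)) :
    f = f' := by
  apply LinearMap.ext_on_range (span_gen ho) h

end ev

end Pool.Agent.Lib_helper33.Berg
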