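import Pool.Agent.Lib_helper33.BergCore

/-!
# Elementary moves lower the weight
-/

universe u

set_option linter.unusedSectionVars false

namespace Pool.Agent.Lib_helper33.Berg

open Finsupp

variable {X S : Type u} {I J : Type} {D : Data X S} {o : I → Option X} {hD : D.Good}

/-- A family of minimal weight among the families satisfying `C`. -/
def IsMin (C : (J : Type) → (J → X) → (J → P hD o) → Prop) [Fintype J] (F : LF hD o J) : Prop :=
  ∀ (J' : Type) [Fintype J'] (F' : LF hD o J'), C J' F'.y F'.u →
    ∑ j, om (F.lab j) ≤ ∑ j, om (F'.lab j)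

lemma f_gen (F : LF hD o J) (j : J) : F.f (gen (ok_oo F.alive) j) = F.u j := by
  unfold LF.f
  exact ev_gen _ _ _ _

/-- the rest of an element after removing a generator -/
noncomputable def rest (F : LF hD o J) (q : P hD (oo F.y)) (j : J) : P hD (oo F.y) :=
  q - (val q (.gen j)) • gen (ok_oo F.alive) j

lemma val_gen (F : LF hD o J) (j : J) :
    val (gen (hD := hD) (ok_oo F.alive) j) = single (W.gen j) 1 := rfl

lemma val_rest (F : LF hD o J) (q : P hD (oo F.y)) (j : J) :
    val (rest F q j) = val q - single (.gen j) (val q (.gen j)) := by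
  rw [rest, map_sub, map_smul, val_gen, smul_single, smul_eq_mul, mul_one]

lemma f_eq_rest (F : LF hD o J) (q : P hD (oo F.y)) (j : J) :
    F.f q = (val q (.gen j)) • F.u j + F.f (rest F q j) := by
  rw [rest, map_sub, map_rat_smul, f_gen]
  abel

variable {C : (J : Type) → (J → X) → (J → P hD o) → Prop}

open Classical in
/-- The result of a transvection. -/
lemma trans_move (hC : Closed hD o C) (F : LF hD o J) (hF : C J F.y F.u) (j0 : J)
    (q : P hD (oo F.y)) (hc : val q (.gen j0) ≠ 0)
    (hav : val q - single (.gen j0) (val q (.gen j0)) ∈ Avoid X S j0) :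
    C J F.y (Function.update F.u j0 (F.f q)) := by
  refine hC.trans F.y F.u {j0} (fun _ => val q (.gen j0)) (fun _ => F.f (rest F q j0)) _
    F.hom (fun _ _ => hc) ?_ ?_ ?_ hF
  · rintro j -
    apply f_span
    intro w hw
    rw [val_rest] at hw
    exact mem_Avoid.1 hav w hw
  · rintro j rfl
    rw [Function.update_self, ← f_eq_rest]
  · intro j hj
    rw [Function.update_of_ne hj]

open Classical in
lemma no_trans [Fintype J] (hC : Closed hD o C) (F : LF hD o J) (hF : C J F.y F.u)
    (hmin : IsMin C F) (j0 : J) (q : P hD (oo F.y)) (hq : val q ∈ Hom D (oo F.y) (F.y j0))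
    (hc : val q (.gen j0) ≠ 0)
    (hav : val q - single (.gen j0) (val q (.gen j0)) ∈ Avoid X S j0) (l : Label X S)
    (hok : OkLab D (F.y j0) (val (F.f q)) l) (hlt : om l < om (F.lab j0)) : False := by
  have h1 := trans_move hC F hF j0 q hc hav
  let F' : LF hD o J :=
    { y := F.y
      u := Function.update F.u j0 (F.f q)
      lab := Function.update F.lab j0 l
      alive := F.alive
      hom := by
        intro j
        by_cases hj : j = j0
        · subst hj
          rw [Function.update_self]
          exact f_Hom F hq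
        · rw [Function.update_of_ne hj]
          exact F.hom j
      ok := by
        intro j
        by_cases hj : j = j0
        · subst hj
          rw [Function.update_self, Function.update_self]
          exact hok
        · rw [Function.update_of_ne hj, Function.update_of_ne hj]
          exact F.ok j }
  have h2 := hmin J F' h1
  have h3 : ∑ j, om (F'.lab j) < ∑ j, om (F.lab j) := by
    refine Finset.sum_lt_sum ?_ ⟨j0, Finset.mem_univ _, ?_⟩
    · intro j _
      by_cases hj : j = j0
      · subst hj
        simp only [F', Function.update_self]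
        exact hlt.le
      · simp only [F', Function.update_of_ne hj]
        exact le_rfl
    · simp only [F', Function.update_self]
      exact hlt
  omega

noncomputable instance instFintypeAlive (s : S) : Fintype {b : Bool // D.alive (D.x s b)} :=
  Fintype.ofFinite _

lemma card_alive_le (s : S) : Fintype.card {b : Bool // D.alive (D.x s b)} ≤ 2 := by
  classical
  have := Fintype.card_subtype_le (fun b : Bool => D.alive (D.x s b))
  rw [Fintype.card_bool] at this
  refine le_trans (le_of_eq ?_) this
  exact Fintype.card_congr (Equiv.refl _)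

open Classical in
/-- Splitting off an index. -/
noncomputable def splitEquiv (j0 : J) : {j // j ≠ j0} ⊕ Unit ≃ J :=
  (Equiv.optionEquivSumPUnit _).symm.trans (Equiv.optionSubtypeNe j0)

@[simp] lemma splitEquiv_inl (j0 : J) (j : {j // j ≠ j0}) : splitEquiv j0 (Sum.inl j) = j := by
  simp [splitEquiv]

@[simp] lemma splitEquiv_inr (j0 : J) (t : Unit) : splitEquiv j0 (Sum.inr t) = j0 := by
  simp [splitEquiv]

open Classical in
lemma no_split [Fintype J] (hC : Closed hD o C) (F : LF hD o J) (hF : C J F.y F.u)
    (hmin : IsMin C F) (j0 : J) (q : P hD (oo F.y)) (s : S) (n : ℕ)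
    (hys : F.y j0 = D.z s) (hlab : F.lab j0 = .ev (n + 1))
    (hq : val q ∈ Hom D (oo F.y) (F.y j0)) (hc : val q (.gen j0) ≠ 0)
    (hav : val q - single (.gen j0) (val q (.gen j0)) ∈ Avoid X S j0)
    (hok : val (F.f q) ∈ GG (lab1 : I → Label X S) (n + 1) (Sum.inr s)) : False := by
  have h1 := trans_move hC F hF j0 q hc hav
  have h2 := hC.reindex (splitEquiv j0) _ _ h1
  have hv : val (F.f q) ∈ Hom D o (D.z s) := by
    rw [← hys]
    exact f_Hom F hq
  have e1 : F.y ∘ splitEquiv j0 = Sum.elim (fun j : {j // j ≠ j0} => F.y j) (fun _ => D.z s) := by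
    funext j
    rcases j with j | j
    · simp
    · simp [hys]
  have e2 : (Function.update F.u j0 (F.f q)) ∘ splitEquiv j0 =
      Sum.elim (fun j : {j // j ≠ j0} => F.u j) (fun _ => F.f q) := by
    funext j
    rcases j with j | j
    · simp [Function.update_of_ne j.2]
    · simp
  rw [e1, e2, hC.split _ _ s _ hv] at h2
  let F' : LF hD o ({j // j ≠ j0} ⊕ {b : Bool // D.alive (D.x s b)}) :=
    { y := Sum.elim (fun j : {j // j ≠ j0} => F.y j) (fun b => D.x s b)
      u := Sum.elim (fun j : {j // j ≠ j0} => F.u j) (fun b => dn D s b • F.f q)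
      lab := Sum.elim (fun j : {j // j ≠ j0} => F.lab j) (fun _ => .od n (Sum.inr s))
      alive := by
        rintro (j | b)
        · exact F.alive j
        · exact b.2
      hom := by
        rintro (j | b)
        · exact F.hom j
        · simp only [Sum.elim_inr]
          rw [val_dn_of_Hom hv]
          exact ta_mem_Hom hD (val_mem _)
      ok := by
        rintro (j | b)
        · exact F.ok j
        · simp only [Sum.elim_inr, OkLab]
          rw [val_dn_of_Hom hv]
          exact ⟨ta_GG s b hok, b, b.2, rfl⟩ }
  have h3 := hmin _ F' h2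
  have h4 : ∑ j, om (F'.lab j) = (∑ j : {j // j ≠ j0}, om (F.lab j)) +
      Fintype.card {b : Bool // D.alive (D.x s b)} * om (.od n (Sum.inr s) : Label X S) := by
    rw [Fintype.sum_sum_type]
    simp only [F', Sum.elim_inl, Sum.elim_inr, Finset.sum_const, Finset.card_univ, smul_eq_mul]
  have h5 : ∑ j, om (F.lab j) = (∑ j : {j // j ≠ j0}, om (F.lab j)) + om (F.lab j0) := by
    rw [← (splitEquiv j0).sum_comp, Fintype.sum_sum_type]
    simp
  have h6 := om_od_lt_ev (X := X) n (Sum.inr s)
  have h7 := Nat.mul_le_mul_right (om (.od n (Sum.inr s) : Label X S)) (card_alive_le (D := D) s)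
  rw [h4, h5, hlab] at h3
  omega

open Classical in
/-- Splitting off the range of an injective map. -/
noncomputable def rangeEquiv {B : Type} (jj : B → J) (h : Function.Injective jj) :
    {j // j ∉ Set.range jj} ⊕ B ≃ J :=
  (Equiv.sumComm _ _).trans
    ((Equiv.sumCongr (Equiv.ofInjective jj h) (Equiv.refl _)).trans
      (Equiv.sumCompl (fun j => j ∈ Set.range jj)))

@[simp] lemma rangeEquiv_inl {B : Type} (jj : B → J) (h : Function.Injective jj)
    (j : {j // j ∉ Set.range jj}) : rangeEquiv jj h (Sum.inl j) = j := by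
  simp [rangeEquiv]

@[simp] lemma rangeEquiv_inr {B : Type} (jj : B → J) (h : Function.Injective jj)
    (b : B) : rangeEquiv jj h (Sum.inr b) = jj b := by
  simp [rangeEquiv]

open Classical in
lemma no_merge [Fintype J] (hC : Closed hD o C) (F : LF hD o J) (hF : C J F.y F.u)
    (hmin : IsMin C F) (s : S) (n : ℕ) (q : P hD (oo F.y)) (hz : D.alive (D.z s))
    (hq : val q ∈ Hom D (oo F.y) (D.z s))
    (jj : {b : Bool // D.alive (D.x s b)} → J)
    (hlab : ∀ b, F.lab (jj b) = .od n (Sum.inr s))
    (hy : ∀ b : {b : Bool // D.alive (D.x s b)}, F.y (jj b) = D.x s b)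
    (hc : ∀ b : {b : Bool // D.alive (D.x s b)}, val (dn D s b • q) (.gen (jj b)) ≠ 0)
    (hav : ∀ b b' : {b : Bool // D.alive (D.x s b)},
      val (rest F (dn D s b • q) (jj b)) ∈ Avoid X S (jj b'))
    (hok : val (F.f q) ∈ BB (lab1 : I → Label X S) n) : False := by
  have hinj : Function.Injective jj := by
    intro b b' h
    have h1 : D.x s b = D.x s b' := by rw [← hy, ← hy, h]
    have h2 := hD.x_ne s
    apply Subtype.ext
    rcases b with ⟨b, hb⟩
    rcases b' with ⟨b', hb'⟩
    cases b <;> cases b' <;> simp_all
  have hv : val (F.f q) ∈ Hom D o (D.z s) := f_Hom F hq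
  -- the new family
  let u' : J → P hD o := fun j => if h : ∃ b, jj b = j then dn D s h.choose • F.f q else F.u j
  have hu'1 : ∀ b : {b : Bool // D.alive (D.x s b)}, u' (jj b) = dn D s b • F.f q := by
    intro b
    have h : ∃ b', jj b' = jj b := ⟨b, rfl⟩
    have h2 : h.choose = b := hinj h.choose_spec
    simp only [u', dif_pos h, h2]
  have hu'2 : ∀ j, j ∉ Set.range jj → u' j = F.u j := by
    intro j hj
    have h : ¬ ∃ b, jj b = j := hj
    simp only [u', dif_neg h]
  have h1 : C J F.y u' := by
    refine hC.trans F.y F.u (Set.range jj)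
      (fun j => if h : ∃ b, jj b = j then val (dn D s h.choose • q) (.gen j) else 0)
      (fun j => if h : ∃ b, jj b = j then F.f (rest F (dn D s h.choose • q) j) else 0) u'
      F.hom ?_ ?_ ?_ hu'2 hF
    · rintro j ⟨b, rfl⟩
      have h : ∃ b', jj b' = jj b := ⟨b, rfl⟩
      have h2 : h.choose = b := hinj h.choose_spec
      simp only [dif_pos h, h2]
      exact hc b
    · rintro j ⟨b, rfl⟩
      have h : ∃ b', jj b' = jj b := ⟨b, rfl⟩
      have h2 : h.choose = b := hinj h.choose_spec
      simp only [dif_pos h, h2]
      apply f_span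
      rintro w hw ⟨b', hb'⟩
      exact mem_Avoid.1 (hav b b') w hw hb'.symm
    · rintro j ⟨b, rfl⟩
      have h : ∃ b', jj b' = jj b := ⟨b, rfl⟩
      have h2 : h.choose = b := hinj h.choose_spec
      rw [hu'1]
      simp only [dif_pos h, h2]
      rw [← f_eq_rest, map_smul]
  have h2 := hC.reindex (rangeEquiv jj hinj) _ _ h1
  have e1 : F.y ∘ rangeEquiv jj hinj =
      Sum.elim (fun j : {j // j ∉ Set.range jj} => F.y j)
        (fun b : {b : Bool // D.alive (D.x s b)} => D.x s b) := by
    funext j
    rcases j with j | j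
    · simp
    · simp [hy]
  have e2 : u' ∘ rangeEquiv jj hinj =
      Sum.elim (fun j : {j // j ∉ Set.range jj} => F.u j)
        (fun b : {b : Bool // D.alive (D.x s b)} => dn D s b • F.f q) := by
    funext j
    rcases j with j | j
    · simp only [Function.comp_apply, rangeEquiv_inl, Sum.elim_inl]
      exact hu'2 j j.2
    · simp only [Function.comp_apply, rangeEquiv_inr, Sum.elim_inr]
      exact hu'1 j
  rw [e1, e2, ← hC.split _ _ s _ hv] at h2
  let F' : LF hD o ({j // j ∉ Set.range jj} ⊕ Unit) :=
    { y := Sum.elim (fun j : {j // j ∉ Set.range jj} => F.y j) (fun _ => D.z s)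
      u := Sum.elim (fun j : {j // j ∉ Set.range jj} => F.u j) (fun _ => F.f q)
      lab := Sum.elim (fun j : {j // j ∉ Set.range jj} => F.lab j) (fun _ => .ev n)
      alive := by
        rintro (j | b)
        · exact F.alive j
        · exact hz
      hom := by
        rintro (j | b)
        · exact F.hom j
        · exact hv
      ok := by
        rintro (j | b)
        · exact F.ok j
        · exact hok }
  have h3 := hmin _ F' h2
  have h4 : ∑ j, om (F'.lab j) = (∑ j : {j // j ∉ Set.range jj}, om (F.lab j)) +
      om (.ev n : Label X S) := by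
    rw [Fintype.sum_sum_type]
    simp [F']
  have h5 : ∑ j, om (F.lab j) = (∑ j : {j // j ∉ Set.range jj}, om (F.lab j)) +
      Fintype.card {b : Bool // D.alive (D.x s b)} * om (.od n (Sum.inr s) : Label X S) := by
    rw [← (rangeEquiv jj hinj).sum_comp, Fintype.sum_sum_type]
    simp [hlab]
  have h6 := om_ev_lt_od (X := X) n (Sum.inr s)
  have h7 : 1 ≤ Fintype.card {b : Bool // D.alive (D.x s b)} := by
    rw [Nat.one_le_iff_ne_zero, ne_eq, Fintype.card_eq_zero_iff,
      not_isEmpty_iff]
    rw [hD.alive_z] at hz
    rcases hz with h | h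
    · exact ⟨⟨false, h⟩⟩
    · exact ⟨⟨true, h⟩⟩
  have h8 := Nat.mul_le_mul_right (om (.od n (Sum.inr s) : Label X S)) h7
  rw [h4, h5] at h3
  omega

end Pool.Agent.Lib_helper33.Berg
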