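import Pool.Agent.Lib_helper33.BergAlg

/-!
# Word modules

The free module over `Alg D` on generators placed at objects, realised on a basis of words.
-/

universe u

namespace Pool.Agent.Lib_helper33.Berg

open Finsupp

/-- Raw words. -/
inductive W (X S : Type u) (I : Type) : Type u
  | gen : I → W X S I
  | E : X → W X S I → W X S I
  | A : S → Bool → W X S I → W X S I
  | B : S → Bool → W X S I → W X S I
  | C : S → W X S I → W X S I

variable {X S : Type u} {I : Type}

/-- The object at which a word sits. -/
def ob (D : Data X S) (o : I → Option X) : W X S I → Option X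
  | .gen i => o i
  | .E x _ => some x
  | .A s b _ => some (D.x s b)
  | .B s _ _ => some (D.z s)
  | .C s _ => some (D.z s)

/-- The type of the head letter. -/
def ty : W X S I → Option (X ⊕ S)
  | .gen _ => none
  | .E x _ => some (Sum.inl x)
  | .A s _ _ => some (Sum.inr s)
  | .B s _ _ => some (Sum.inr s)
  | .C s _ => some (Sum.inr s)

/-- Reduced words. -/
def Valid (D : Data X S) (o : I → Option X) : W X S I → Prop
  | .gen i => ∀ x, o i = some x → D.alive x
  | .E x w => D.alive x ∧ ob D o w ≠ some x ∧ Valid D o w
  | .A s b w => D.alive (D.x s b) ∧ ob D o w = some (D.z s) ∧ ty w ≠ some (Sum.inr s) ∧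
      Valid D o w
  | .B s b w => D.alive (D.x s b) ∧ ob D o w = some (D.x s b) ∧ ty w ≠ some (Sum.inr s) ∧
      Valid D o w
  | .C s w => D.alive (D.x s false) ∧ D.alive (D.x s true) ∧ ob D o w = some (D.z s) ∧
      ty w ≠ some (Sum.inr s) ∧ Valid D o w

lemma valid_E {D : Data X S} {o : I → Option X} {x : X} {w : W X S I} (h1 : D.alive x)
    (h2 : ob D o w ≠ some x) (h3 : Valid D o w) : Valid D o (.E x w) := ⟨h1, h2, h3⟩

lemma valid_A {D : Data X S} {o : I → Option X} {s : S} {b : Bool} {w : W X S I}
    (h1 : D.alive (D.x s b)) (h2 : ob D o w = some (D.z s)) (h3 : ty w ≠ some (Sum.inr s))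
    (h4 : Valid D o w) : Valid D o (.A s b w) := ⟨h1, h2, h3, h4⟩

lemma valid_B {D : Data X S} {o : I → Option X} {s : S} {b : Bool} {w : W X S I}
    (h1 : D.alive (D.x s b)) (h2 : ob D o w = some (D.x s b)) (h3 : ty w ≠ some (Sum.inr s))
    (h4 : Valid D o w) : Valid D o (.B s b w) := ⟨h1, h2, h3, h4⟩

lemma valid_C {D : Data X S} {o : I → Option X} {s : S} {w : W X S I}
    (h0 : D.alive (D.x s false)) (h1 : D.alive (D.x s true)) (h2 : ob D o w = some (D.z s))
    (h3 : ty w ≠ some (Sum.inr s)) (h4 : Valid D o w) : Valid D o (.C s w) :=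
  ⟨h0, h1, h2, h3, h4⟩

open Classical in
/-- Action of `e x` on a word. -/
noncomputable def teW (D : Data X S) (o : I → Option X) (x : X) (w : W X S I) : W X S I →₀ ℚ :=
  if D.alive x then (if ob D o w = some x then single w 1 else single (.E x w) 1) else 0

open Classical in
/-- Action of the downward map on a word at `z s`. -/
noncomputable def taR (s : S) (b : Bool) (w : W X S I) : W X S I →₀ ℚ :=
  match w with
  | .B s' b' w' => if s' = s then (if b' = b then single w' 1 else 0) else single (.A s b w) 1
  | .C s' w' => if s' = s then (if b = false then single (.A s false w') 1 else 0)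
      else single (.A s b w) 1
  | w => single (.A s b w) 1

open Classical in
/-- Action of the downward map, zero on words not at `z s`. -/
noncomputable def taW (D : Data X S) (o : I → Option X) (s : S) (b : Bool) (w : W X S I) :
    W X S I →₀ ℚ :=
  if ob D o w = some (D.z s) ∧ D.alive (D.x s b) then taR s b w else 0

open Classical in
/-- Action of the upward map on a word at `x s b`. -/
noncomputable def tbR (D : Data X S) (s : S) (b : Bool) (w : W X S I) : W X S I →₀ ℚ :=
  match w with
  | .A s' _ w' => if s' = s then
      (if D.alive (D.x s false) ∧ D.alive (D.x s true) then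
        (if b = false then single (.C s w') 1 else single w' 1 - single (.C s w') 1)
      else single w' 1) else single (.B s b w) 1
  | w => single (.B s b w) 1

open Classical in
/-- Action of the upward map, zero on words not at `x s b`. -/
noncomputable def tbW (D : Data X S) (o : I → Option X) (s : S) (b : Bool) (w : W X S I) :
    W X S I →₀ ℚ :=
  if ob D o w = some (D.x s b) ∧ D.alive (D.x s b) then tbR D s b w else 0

/-- Linear extension. -/
noncomputable def te (D : Data X S) (o : I → Option X) (x : X) :
    (W X S I →₀ ℚ) →ₗ[ℚ] (W X S I →₀ ℚ) := Finsupp.linearCombination ℚ (teW D o x)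
/-- Linear extension. -/
noncomputable def ta (D : Data X S) (o : I → Option X) (s : S) (b : Bool) :
    (W X S I →₀ ℚ) →ₗ[ℚ] (W X S I →₀ ℚ) := Finsupp.linearCombination ℚ (taW D o s b)
/-- Linear extension. -/
noncomputable def tb (D : Data X S) (o : I → Option X) (s : S) (b : Bool) :
    (W X S I →₀ ℚ) →ₗ[ℚ] (W X S I →₀ ℚ) := Finsupp.linearCombination ℚ (tbW D o s b)

variable {D : Data X S} {o : I → Option X}

@[simp] lemma te_single (x : X) (w : W X S I) : te D o x (single w 1) = teW D o x w := by
  simp [te]
@[simp] lemma ta_single (s : S) (b : Bool) (w : W X S I) :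
    ta D o s b (single w 1) = taW D o s b w := by
  simp [ta]
@[simp] lemma tb_single (s : S) (b : Bool) (w : W X S I) :
    tb D o s b (single w 1) = tbW D o s b w := by
  simp [tb]

/-! ### evaluation of the operators on words -/

lemma te_of_dead {x : X} (hx : ¬ D.alive x) (w : W X S I) : te D o x (single w 1) = 0 := by
  simp [teW, hx]

lemma te_of_ob {x : X} (hx : D.alive x) {w : W X S I} (h : ob D o w = some x) :
    te D o x (single w 1) = single w 1 := by
  simp [teW, hx, h]

lemma te_of_ne {x : X} (hx : D.alive x) {w : W X S I} (h : ob D o w ≠ some x) :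
    te D o x (single w 1) = single (.E x w) 1 := by
  simp [teW, hx, h]

lemma ta_of_dead {s : S} {b : Bool} (hx : ¬ D.alive (D.x s b)) (w : W X S I) :
    ta D o s b (single w 1) = 0 := by
  simp [taW, hx]

lemma ta_of_ob_ne {s : S} {b : Bool} {w : W X S I} (h : ob D o w ≠ some (D.z s)) :
    ta D o s b (single w 1) = 0 := by
  simp [taW, h]

lemma ta_new {s : S} {b : Bool} (hx : D.alive (D.x s b)) {w : W X S I}
    (h : ob D o w = some (D.z s)) (ht : ty w ≠ some (Sum.inr s)) :
    ta D o s b (single w 1) = single (.A s b w) 1 := by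
  rw [ta_single, taW, if_pos ⟨h, hx⟩]
  cases w <;> simp_all [taR, ty]

lemma ta_B {s : S} {b b' : Bool} (hx : D.alive (D.x s b)) (w : W X S I) :
    ta D o s b (single (.B s b' w) 1) = if b' = b then single w 1 else 0 := by
  simp [taW, taR, ob, hx]

lemma ta_C {s : S} {b : Bool} (hx : D.alive (D.x s b)) (w : W X S I) :
    ta D o s b (single (.C s w) 1) = if b = false then single (.A s false w) 1 else 0 := by
  simp [taW, taR, ob, hx]

lemma tb_of_dead {s : S} {b : Bool} (hx : ¬ D.alive (D.x s b)) (w : W X S I) :
    tb D o s b (single w 1) = 0 := by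
  simp [tbW, hx]

lemma tb_of_ob_ne {s : S} {b : Bool} {w : W X S I} (h : ob D o w ≠ some (D.x s b)) :
    tb D o s b (single w 1) = 0 := by
  simp [tbW, h]

lemma tb_new {s : S} {b : Bool} (hx : D.alive (D.x s b)) {w : W X S I}
    (h : ob D o w = some (D.x s b)) (ht : ty w ≠ some (Sum.inr s)) :
    tb D o s b (single w 1) = single (.B s b w) 1 := by
  rw [tb_single, tbW, if_pos ⟨h, hx⟩]
  cases w <;> simp_all [tbR, ty]

lemma tb_A_one {s : S} {b : Bool} (hx : D.alive (D.x s b)) (hx' : ¬ D.alive (D.x s (!b)))
    (w : W X S I) :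
    tb D o s b (single (.A s b w) 1) = single w 1 := by
  have : ¬ (D.alive (D.x s false) ∧ D.alive (D.x s true)) := by
    cases b <;> simp_all
  simp [tbW, tbR, ob, hx, this]

lemma tb_A_false {s : S} (hx : D.alive (D.x s false)) (hx' : D.alive (D.x s true))
    (w : W X S I) :
    tb D o s false (single (.A s false w) 1) = single (.C s w) 1 := by
  simp [tbW, tbR, ob, hx, hx']

lemma tb_A_true {s : S} (hx : D.alive (D.x s false)) (hx' : D.alive (D.x s true))
    (w : W X S I) :
    tb D o s true (single (.A s true w) 1) = single w 1 - single (.C s w) 1 := by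
  simp [tbW, tbR, ob, hx, hx']

/-! ### the module of reduced words -/

variable (D o) in
/-- The space spanned by reduced words. -/
def PM : Submodule ℚ (W X S I →₀ ℚ) := Finsupp.supported ℚ ℚ {w | Valid D o w}

lemma mem_PM {p : W X S I →₀ ℚ} : p ∈ PM D o ↔ ∀ w ∈ p.support, Valid D o w := by
  rw [PM, Finsupp.mem_supported]; rfl

lemma single_mem_PM {w : W X S I} (h : Valid D o w) (c : ℚ) : single w c ∈ PM D o :=
  Finsupp.single_mem_supported ℚ c h

/-- Linear maps agreeing on reduced words agree on `PM`. -/
lemma PM_induction {C : (W X S I →₀ ℚ) → Prop} (h0 : C 0)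
    (hadd : ∀ p q, C p → C q → C (p + q)) (hs : ∀ (c : ℚ) p, C p → C (c • p))
    (h : ∀ w, Valid D o w → C (single w 1)) {p : W X S I →₀ ℚ} (hp : p ∈ PM D o) : C p := by
  rw [PM, Finsupp.supported_eq_span_single] at hp
  induction hp using Submodule.span_induction with
  | mem x hx =>
    obtain ⟨w, hw, rfl⟩ := hx
    exact h w hw
  | zero => exact h0
  | add x y _ _ hx hy => exact hadd _ _ hx hy
  | smul a x _ hx => exact hs a x hx

lemma PM_ext {N : Type*} [AddCommGroup N] [Module ℚ N] {f f' : (W X S I →₀ ℚ) →ₗ[ℚ] N}
    (h : ∀ w, Valid D o w → f (single w 1) = f' (single w 1)) {p : W X S I →₀ ℚ}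
    (hp : p ∈ PM D o) : f p = f' p := by
  refine PM_induction (C := fun p => f p = f' p) ?_ ?_ ?_ h hp
  · simp
  · intro p q hp hq; rw [map_add, map_add, hp, hq]
  · intro c p hp; rw [map_smul, map_smul, hp]

lemma te_mem (x : X) {p : W X S I →₀ ℚ} (hp : p ∈ PM D o) : te D o x p ∈ PM D o := by
  refine PM_induction (C := fun p => te D o x p ∈ PM D o) ?_ ?_ ?_ ?_ hp
  · simp
  · intro p q hp hq; rw [map_add]; exact add_mem hp hq
  · intro c p hp; rw [map_smul]; exact Submodule.smul_mem _ _ hp
  · intro w hw
    by_cases hx : D.alive x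
    · by_cases h : ob D o w = some x
      · rw [te_of_ob hx h]; exact single_mem_PM hw 1
      · rw [te_of_ne hx h]; exact single_mem_PM (valid_E hx h hw) 1
    · rw [te_of_dead hx]; exact zero_mem _

lemma ta_mem (hD : D.Good) (s : S) (b : Bool) {p : W X S I →₀ ℚ} (hp : p ∈ PM D o) :
    ta D o s b p ∈ PM D o := by
  refine PM_induction (C := fun p => ta D o s b p ∈ PM D o) ?_ ?_ ?_ ?_ hp
  · simp
  · intro p q hp hq; rw [map_add]; exact add_mem hp hq
  · intro c p hp; rw [map_smul]; exact Submodule.smul_mem _ _ hp
  · intro w hw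
    by_cases hx : D.alive (D.x s b)
    swap
    · rw [ta_of_dead hx]; exact zero_mem _
    by_cases h : ob D o w = some (D.z s)
    swap
    · rw [ta_of_ob_ne h]; exact zero_mem _
    by_cases ht : ty w = some (Sum.inr s)
    swap
    · rw [ta_new hx h ht]; exact single_mem_PM (valid_A hx h ht hw) 1
    cases w with
    | gen i => simp [ty] at ht
    | E x w => simp [ty] at ht
    | A s' b' w =>
      simp only [ty, Option.some.injEq, Sum.inr.injEq] at ht
      subst ht
      simp only [ob, Option.some.injEq] at h
      exact absurd h.symm (hD.z_ne _ _)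
    | B s' b' w =>
      simp only [ty, Option.some.injEq, Sum.inr.injEq] at ht
      subst ht
      rw [ta_B hx]
      split_ifs
      · exact single_mem_PM hw.2.2.2 1
      · exact zero_mem _
    | C s' w =>
      simp only [ty, Option.some.injEq, Sum.inr.injEq] at ht
      subst ht
      rw [ta_C hx]
      split_ifs
      · exact single_mem_PM (valid_A hw.1 hw.2.2.1 hw.2.2.2.1 hw.2.2.2.2) 1
      · exact zero_mem _

lemma tb_mem (hD : D.Good) (s : S) (b : Bool) {p : W X S I →₀ ℚ} (hp : p ∈ PM D o) :
    tb D o s b p ∈ PM D o := by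
  refine PM_induction (C := fun p => tb D o s b p ∈ PM D o) ?_ ?_ ?_ ?_ hp
  · simp
  · intro p q hp hq; rw [map_add]; exact add_mem hp hq
  · intro c p hp; rw [map_smul]; exact Submodule.smul_mem _ _ hp
  · intro w hw
    by_cases hx : D.alive (D.x s b)
    swap
    · rw [tb_of_dead hx]; exact zero_mem _
    by_cases h : ob D o w = some (D.x s b)
    swap
    · rw [tb_of_ob_ne h]; exact zero_mem _
    by_cases ht : ty w = some (Sum.inr s)
    swap
    · rw [tb_new hx h ht]; exact single_mem_PM (valid_B hx h ht hw) 1
    cases w with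
    | gen i => simp [ty] at ht
    | E x w => simp [ty] at ht
    | A s' b' w =>
      simp only [ty, Option.some.injEq, Sum.inr.injEq] at ht
      subst ht
      simp only [ob, Option.some.injEq] at h
      have hb : b' = b := by
        have := hD.x_ne s'
        cases b <;> cases b' <;> simp_all
      subst hb
      have hw' := hw.2.2.2
      have hz := hw.2.1
      have hty := hw.2.2.1
      by_cases hx' : D.alive (D.x s' (!b'))
      · cases b'
        · rw [tb_A_false hx hx']
          exact single_mem_PM (valid_C hx hx' hz hty hw') 1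
        · rw [tb_A_true hx' hx]
          exact sub_mem (single_mem_PM hw' 1) (single_mem_PM (valid_C hx' hx hz hty hw') 1)
      · rw [tb_A_one hx hx']
        exact single_mem_PM hw' 1
    | B s' b' w =>
      simp only [ty, Option.some.injEq, Sum.inr.injEq] at ht
      subst ht
      simp only [ob, Option.some.injEq] at h
      exact absurd h (hD.z_ne _ _)
    | C s' w =>
      simp only [ty, Option.some.injEq, Sum.inr.injEq] at ht
      subst ht
      simp only [ob, Option.some.injEq] at h
      exact absurd h (hD.z_ne _ _)

/-! ### relations between the operators -/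

/-- The words at an object. -/
def Hom (D : Data X S) (o : I → Option X) (t : X) : Submodule ℚ (W X S I →₀ ℚ) :=
  Finsupp.supported ℚ ℚ {w | Valid D o w ∧ ob D o w = some t}

lemma mem_Hom {t : X} {p : W X S I →₀ ℚ} :
    p ∈ Hom D o t ↔ ∀ w ∈ p.support, Valid D o w ∧ ob D o w = some t := by
  rw [Hom, Finsupp.mem_supported]; rfl

lemma Hom_le (t : X) : Hom D o t ≤ PM D o := by
  intro p hp
  rw [mem_Hom] at hp
  rw [mem_PM]
  exact fun w hw => (hp w hw).1

lemma single_mem_Hom {t : X} {w : W X S I} (h : Valid D o w) (ht : ob D o w = some t) (c : ℚ) :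
    single w c ∈ Hom D o t :=
  Finsupp.single_mem_supported ℚ c ⟨h, ht⟩

lemma Hom_induction {t : X} {C : (W X S I →₀ ℚ) → Prop} (h0 : C 0)
    (hadd : ∀ p q, C p → C q → C (p + q)) (hs : ∀ (c : ℚ) p, C p → C (c • p))
    (h : ∀ w, Valid D o w → ob D o w = some t → C (single w 1)) {p : W X S I →₀ ℚ}
    (hp : p ∈ Hom D o t) : C p := by
  rw [Hom, Finsupp.supported_eq_span_single] at hp
  induction hp using Submodule.span_induction with
  | mem x hx =>
    obtain ⟨w, hw, rfl⟩ := hx
    exact h w hw.1 hw.2
  | zero => exact h0
  | add x y _ _ hx hy => exact hadd _ _ hx hy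
  | smul a x _ hx => exact hs a x hx

lemma Hom_ext {t : X} {N : Type*} [AddCommGroup N] [Module ℚ N]
    {f f' : (W X S I →₀ ℚ) →ₗ[ℚ] N}
    (h : ∀ w, Valid D o w → ob D o w = some t → f (single w 1) = f' (single w 1))
    {p : W X S I →₀ ℚ} (hp : p ∈ Hom D o t) : f p = f' p := by
  refine Hom_induction (C := fun p => f p = f' p) ?_ ?_ ?_ h hp
  · simp
  · intro p q hp hq; rw [map_add, map_add, hp, hq]
  · intro c p hp; rw [map_smul, map_smul, hp]

lemma te_mem_Hom {x : X} {p : W X S I →₀ ℚ} (hp : p ∈ PM D o) : te D o x p ∈ Hom D o x := by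
  refine PM_induction (C := fun p => te D o x p ∈ Hom D o x) ?_ ?_ ?_ ?_ hp
  · simp
  · intro p q hp hq; rw [map_add]; exact add_mem hp hq
  · intro c p hp; rw [map_smul]; exact Submodule.smul_mem _ _ hp
  · intro w hw
    by_cases hx : D.alive x
    · by_cases h : ob D o w = some x
      · rw [te_of_ob hx h]; exact single_mem_Hom hw h 1
      · rw [te_of_ne hx h]; exact single_mem_Hom (valid_E hx h hw) rfl 1
    · rw [te_of_dead hx]; exact zero_mem _

/-- words at an object show that the object is alive -/
lemma alive_of_valid (hD : D.Good) {w : W X S I} (h : Valid D o w) {t : X}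
    (ht : ob D o w = some t) : D.alive t := by
  cases w with
  | gen i => exact h t ht
  | E x w => simp only [ob, Option.some.injEq] at ht; subst ht; exact h.1
  | A s b w => simp only [ob, Option.some.injEq] at ht; subst ht; exact h.1
  | B s b w =>
    simp only [ob, Option.some.injEq] at ht; subst ht
    rw [hD.alive_z]
    have := h.1
    cases b <;> simp_all
  | C s w =>
    simp only [ob, Option.some.injEq] at ht; subst ht
    rw [hD.alive_z]
    exact Or.inl h.1

lemma te_eq_self (hD : D.Good) {x : X} {p : W X S I →₀ ℚ} (hp : p ∈ Hom D o x) :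
    te D o x p = p := by
  refine Hom_ext (f' := LinearMap.id) ?_ hp
  intro w hw h
  rw [te_of_ob (alive_of_valid hD hw h) h]
  rfl

lemma te_te (hD : D.Good) (x : X) {p : W X S I →₀ ℚ} (hp : p ∈ PM D o) :
    te D o x (te D o x p) = te D o x p := te_eq_self hD (te_mem_Hom hp)

lemma ta_mem_Hom (hD : D.Good) {s : S} {b : Bool} {p : W X S I →₀ ℚ} (hp : p ∈ PM D o) :
    ta D o s b p ∈ Hom D o (D.x s b) := by
  refine PM_induction (C := fun p => ta D o s b p ∈ Hom D o (D.x s b)) ?_ ?_ ?_ ?_ hp
  · simp
  · intro p q hp hq; rw [map_add]; exact add_mem hp hq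
  · intro c p hp; rw [map_smul]; exact Submodule.smul_mem _ _ hp
  · intro w hw
    by_cases hx : D.alive (D.x s b)
    swap
    · rw [ta_of_dead hx]; exact zero_mem _
    by_cases h : ob D o w = some (D.z s)
    swap
    · rw [ta_of_ob_ne h]; exact zero_mem _
    by_cases ht : ty w = some (Sum.inr s)
    swap
    · rw [ta_new hx h ht]; exact single_mem_Hom (valid_A hx h ht hw) rfl 1
    cases w with
    | gen i => simp [ty] at ht
    | E x w => simp [ty] at ht
    | A s' b' w =>
      simp only [ty, Option.some.injEq, Sum.inr.injEq] at ht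
      subst ht
      simp only [ob, Option.some.injEq] at h
      exact absurd h.symm (hD.z_ne _ _)
    | B s' b' w =>
      simp only [ty, Option.some.injEq, Sum.inr.injEq] at ht
      subst ht
      rw [ta_B hx]
      split_ifs with hb
      · subst hb; exact single_mem_Hom hw.2.2.2 hw.2.1 1
      · exact zero_mem _
    | C s' w =>
      simp only [ty, Option.some.injEq, Sum.inr.injEq] at ht
      subst ht
      rw [ta_C hx]
      split_ifs with hb
      · subst hb; exact single_mem_Hom (valid_A hw.1 hw.2.2.1 hw.2.2.2.1 hw.2.2.2.2) rfl 1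
      · exact zero_mem _

lemma tb_mem_Hom (hD : D.Good) {s : S} {b : Bool} {p : W X S I →₀ ℚ} (hp : p ∈ PM D o) :
    tb D o s b p ∈ Hom D o (D.z s) := by
  refine PM_induction (C := fun p => tb D o s b p ∈ Hom D o (D.z s)) ?_ ?_ ?_ ?_ hp
  · simp
  · intro p q hp hq; rw [map_add]; exact add_mem hp hq
  · intro c p hp; rw [map_smul]; exact Submodule.smul_mem _ _ hp
  · intro w hw
    by_cases hx : D.alive (D.x s b)
    swap
    · rw [tb_of_dead hx]; exact zero_mem _
    by_cases h : ob D o w = some (D.x s b)
    swap
    · rw [tb_of_ob_ne h]; exact zero_mem _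
    by_cases ht : ty w = some (Sum.inr s)
    swap
    · rw [tb_new hx h ht]; exact single_mem_Hom (valid_B hx h ht hw) rfl 1
    cases w with
    | gen i => simp [ty] at ht
    | E x w => simp [ty] at ht
    | A s' b' w =>
      simp only [ty, Option.some.injEq, Sum.inr.injEq] at ht
      subst ht
      simp only [ob, Option.some.injEq] at h
      have hb : b' = b := by
        have := hD.x_ne s'
        cases b <;> cases b' <;> simp_all
      subst hb
      have hw' := hw.2.2.2
      have hz := hw.2.1
      have hty := hw.2.2.1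
      by_cases hx' : D.alive (D.x s' (!b'))
      · cases b'
        · rw [tb_A_false hx hx']
          exact single_mem_Hom (valid_C hx hx' hz hty hw') rfl 1
        · rw [tb_A_true hx' hx]
          exact sub_mem (single_mem_Hom hw' hz 1) (single_mem_Hom (valid_C hx' hx hz hty hw') rfl 1)
      · rw [tb_A_one hx hx']
        exact single_mem_Hom hw' hz 1
    | B s' b' w =>
      simp only [ty, Option.some.injEq, Sum.inr.injEq] at ht
      subst ht
      simp only [ob, Option.some.injEq] at h
      exact absurd h (hD.z_ne _ _)
    | C s' w =>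
      simp only [ty, Option.some.injEq, Sum.inr.injEq] at ht
      subst ht
      simp only [ob, Option.some.injEq] at h
      exact absurd h (hD.z_ne _ _)

/-- `dn ∘ up = id` at `x s b`. -/
lemma ta_tb (hD : D.Good) {s : S} {b : Bool} {p : W X S I →₀ ℚ} (hp : p ∈ Hom D o (D.x s b)) :
    ta D o s b (tb D o s b p) = p := by
  refine Hom_ext (f := (ta D o s b).comp (tb D o s b)) (f' := LinearMap.id) ?_ hp
  intro w hw h
  have hx := alive_of_valid hD hw h
  simp only [LinearMap.comp_apply, LinearMap.id_apply]
  by_cases ht : ty w = some (Sum.inr s)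
  swap
  · rw [tb_new hx h ht, ta_B hx, if_pos rfl]
  cases w with
  | gen i => simp [ty] at ht
  | E x w => simp [ty] at ht
  | A s' b' w =>
    simp only [ty, Option.some.injEq, Sum.inr.injEq] at ht
    subst ht
    simp only [ob, Option.some.injEq] at h
    have hb : b' = b := by
      have := hD.x_ne s'
      cases b <;> cases b' <;> simp_all
    subst hb
    have hz := hw.2.1
    have hty := hw.2.2.1
    by_cases hx' : D.alive (D.x s' (!b'))
    · cases b'
      · rw [tb_A_false hx hx', ta_C hx, if_pos rfl]
      · rw [tb_A_true hx' hx, map_sub, ta_C hx, ta_new hx hz hty]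
        simp
    · rw [tb_A_one hx hx', ta_new hx hz hty]
  | B s' b' w =>
    simp only [ty, Option.some.injEq, Sum.inr.injEq] at ht
    subst ht
    simp only [ob, Option.some.injEq] at h
    exact absurd h (hD.z_ne _ _)
  | C s' w =>
    simp only [ty, Option.some.injEq, Sum.inr.injEq] at ht
    subst ht
    simp only [ob, Option.some.injEq] at h
    exact absurd h (hD.z_ne _ _)

/-- `dn ∘ up' = 0` for the other index. -/
lemma ta_tb' (hD : D.Good) {s : S} {b : Bool} {p : W X S I →₀ ℚ} (hp : p ∈ PM D o) :
    ta D o s b (tb D o s (!b) p) = 0 := by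
  refine PM_ext (f := (ta D o s b).comp (tb D o s (!b))) (f' := 0) ?_ hp
  intro w hw
  simp only [LinearMap.comp_apply, LinearMap.zero_apply]
  by_cases hx : D.alive (D.x s (!b))
  swap
  · rw [tb_of_dead hx, map_zero]
  by_cases h : ob D o w = some (D.x s (!b))
  swap
  · rw [tb_of_ob_ne h, map_zero]
  by_cases hxb : D.alive (D.x s b)
  swap
  · have h1 : ∀ q : W X S I →₀ ℚ, ta D o s b q = 0 := by
      intro q
      induction q using Finsupp.induction_linear with
      | zero => simp
      | add p q hp hq => rw [map_add, hp, hq, add_zero]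
      | single w c =>
        rw [← mul_one c, ← smul_eq_mul, ← Finsupp.smul_single, map_smul, ta_of_dead hxb, smul_zero]
    exact h1 _
  by_cases ht : ty w = some (Sum.inr s)
  swap
  · rw [tb_new hx h ht, ta_B hxb, if_neg (by cases b <;> simp)]
  cases w with
  | gen i => simp [ty] at ht
  | E x w => simp [ty] at ht
  | A s' b' w =>
    simp only [ty, Option.some.injEq, Sum.inr.injEq] at ht
    subst ht
    simp only [ob, Option.some.injEq] at h
    have hb : b' = !b := by
      have := hD.x_ne s'
      cases b <;> cases b' <;> simp_all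
    subst hb
    have hz := hw.2.1
    have hty := hw.2.2.1
    cases b
    · simp only [Bool.not_false] at hx ⊢
      rw [tb_A_true hxb hx, map_sub, ta_C hxb, ta_new hxb hz hty]
      simp
    · simp only [Bool.not_true] at hx ⊢
      rw [tb_A_false hx hxb, ta_C hxb]
      simp
  | B s' b' w =>
    simp only [ty, Option.some.injEq, Sum.inr.injEq] at ht
    subst ht
    simp only [ob, Option.some.injEq] at h
    exact absurd h (hD.z_ne _ _)
  | C s' w =>
    simp only [ty, Option.some.injEq, Sum.inr.injEq] at ht
    subst ht
    simp only [ob, Option.some.injEq] at h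
    exact absurd h (hD.z_ne _ _)

/-- `up ∘ dn + up ∘ dn = id` at `z s`. -/
lemma tb_ta_add (hD : D.Good) {s : S} {p : W X S I →₀ ℚ} (hp : p ∈ Hom D o (D.z s)) :
    tb D o s false (ta D o s false p) + tb D o s true (ta D o s true p) = p := by
  refine Hom_ext (f := (tb D o s false).comp (ta D o s false) +
    (tb D o s true).comp (ta D o s true)) (f' := LinearMap.id) ?_ hp
  intro w hw h
  have hz := alive_of_valid hD hw h
  rw [hD.alive_z] at hz
  simp only [LinearMap.comp_apply, LinearMap.id_apply, LinearMap.add_apply]
  by_cases hf : D.alive (D.x s false)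
  · by_cases htr : D.alive (D.x s true)
    · by_cases ht : ty w = some (Sum.inr s)
      swap
      · rw [ta_new hf h ht, ta_new htr h ht, tb_A_false hf htr, tb_A_true hf htr]
        abel
      cases w with
      | gen i => simp [ty] at ht
      | E x w => simp [ty] at ht
      | A s' b' w =>
        simp only [ty, Option.some.injEq, Sum.inr.injEq] at ht
        subst ht
        simp only [ob, Option.some.injEq] at h
        exact absurd h.symm (hD.z_ne _ _)
      | B s' b' w =>
        simp only [ty, Option.some.injEq, Sum.inr.injEq] at ht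
        subst ht
        rw [ta_B hf, ta_B htr]
        cases b'
        · rw [if_pos rfl, if_neg (by simp), map_zero, add_zero, tb_new hf hw.2.1 hw.2.2.1]
        · rw [if_pos rfl, if_neg (by simp), map_zero, zero_add, tb_new htr hw.2.1 hw.2.2.1]
      | C s' w =>
        simp only [ty, Option.some.injEq, Sum.inr.injEq] at ht
        subst ht
        rw [ta_C hf, ta_C htr, if_pos rfl, if_neg (by simp), map_zero, add_zero,
          tb_A_false hf htr]
    · rw [ta_of_dead htr, map_zero, add_zero]
      by_cases ht : ty w = some (Sum.inr s)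
      swap
      · rw [ta_new hf h ht, tb_A_one hf (by simpa using htr)]
      cases w with
      | gen i => simp [ty] at ht
      | E x w => simp [ty] at ht
      | A s' b' w =>
        simp only [ty, Option.some.injEq, Sum.inr.injEq] at ht
        subst ht
        simp only [ob, Option.some.injEq] at h
        exact absurd h.symm (hD.z_ne _ _)
      | B s' b' w =>
        simp only [ty, Option.some.injEq, Sum.inr.injEq] at ht
        subst ht
        cases b'
        · rw [ta_B hf, if_pos rfl, tb_new hf hw.2.1 hw.2.2.1]
        · exact absurd hw.1 htr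
      | C s' w =>
        simp only [ty, Option.some.injEq, Sum.inr.injEq] at ht
        subst ht
        exact absurd hw.2.1 htr
  · have htr : D.alive (D.x s true) := by tauto
    rw [ta_of_dead hf, map_zero, zero_add]
    by_cases ht : ty w = some (Sum.inr s)
    swap
    · rw [ta_new htr h ht, tb_A_one htr (by simpa using hf)]
    cases w with
    | gen i => simp [ty] at ht
    | E x w => simp [ty] at ht
    | A s' b' w =>
      simp only [ty, Option.some.injEq, Sum.inr.injEq] at ht
      subst ht
      simp only [ob, Option.some.injEq] at h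
      exact absurd h.symm (hD.z_ne _ _)
    | B s' b' w =>
      simp only [ty, Option.some.injEq, Sum.inr.injEq] at ht
      subst ht
      cases b'
      · exact absurd hw.1 hf
      · rw [ta_B htr, if_pos rfl, tb_new htr hw.2.1 hw.2.2.1]
    | C s' w =>
      simp only [ty, Option.some.injEq, Sum.inr.injEq] at ht
      subst ht
      exact absurd hw.1 hf

/-! ### the module structure -/

/-- Operators attached to the generators. -/
noncomputable def op (D : Data X S) (o : I → Option X) : Gen X S →
    (W X S I →₀ ℚ) →ₗ[ℚ] (W X S I →₀ ℚ)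
  | .e x => te D o x
  | .dn s b => (ta D o s b).comp (te D o (D.z s))
  | .up s b => (tb D o s b).comp (te D o (D.x s b))

lemma op_mem (hD : D.Good) (a : Gen X S) {p : W X S I →₀ ℚ} (hp : p ∈ PM D o) :
    op D o a p ∈ PM D o := by
  cases a with
  | e x => exact te_mem x hp
  | dn s b => exact ta_mem hD s b (te_mem _ hp)
  | up s b => exact tb_mem hD s b (te_mem _ hp)

/-- Operators on `PM`. -/
noncomputable def opM (hD : D.Good) (o : I → Option X) (a : Gen X S) :
    Module.End ℚ (PM D o) :=
  (op D o a).restrict (fun _ hp => op_mem hD a hp)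

@[simp] lemma opM_coe (hD : D.Good) (a : Gen X S) (p : PM D o) :
    ((opM hD o a p : PM D o) : W X S I →₀ ℚ) = op D o a p := rfl

lemma respects_opM (hD : D.Good) (o : I → Option X) : Respects D (opM hD o) where
  dead x hx := by
    ext p : 1
    apply Subtype.ext
    simp only [opM_coe, op, LinearMap.zero_apply, ZeroMemClass.coe_zero]
    refine PM_ext (f' := 0) ?_ p.2
    intro w _
    rw [te_of_dead hx]; rfl
  idem x := by
    ext p : 1
    apply Subtype.ext
    simp only [Module.End.mul_apply, opM_coe, op]
    exact te_te hD x p.2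
  e_dn s b := by
    ext p : 1
    apply Subtype.ext
    simp only [Module.End.mul_apply, opM_coe, op, LinearMap.comp_apply]
    exact te_eq_self hD (ta_mem_Hom hD (te_mem _ p.2))
  dn_e s b := by
    ext p : 1
    apply Subtype.ext
    simp only [Module.End.mul_apply, opM_coe, op, LinearMap.comp_apply]
    rw [te_te hD _ p.2]
  e_up s b := by
    ext p : 1
    apply Subtype.ext
    simp only [Module.End.mul_apply, opM_coe, op, LinearMap.comp_apply]
    exact te_eq_self hD (tb_mem_Hom hD (te_mem _ p.2))
  up_e s b := by
    ext p : 1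
    apply Subtype.ext
    simp only [Module.End.mul_apply, opM_coe, op, LinearMap.comp_apply]
    rw [te_te hD _ p.2]
  dn_up s b := by
    ext p : 1
    apply Subtype.ext
    simp only [Module.End.mul_apply, opM_coe, op, LinearMap.comp_apply]
    rw [te_eq_self hD (tb_mem_Hom hD (te_mem _ p.2)), ta_tb hD (te_mem_Hom p.2)]
  dn_up' s b := by
    ext p : 1
    apply Subtype.ext
    simp only [Module.End.mul_apply, opM_coe, op, LinearMap.comp_apply, LinearMap.zero_apply,
      ZeroMemClass.coe_zero]
    rw [te_eq_self hD (tb_mem_Hom hD (te_mem _ p.2)), ta_tb' hD (te_mem _ p.2)]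
  sum s := by
    ext p : 1
    apply Subtype.ext
    simp only [Module.End.mul_apply, opM_coe, op, LinearMap.comp_apply, LinearMap.add_apply,
      Submodule.coe_add]
    rw [te_eq_self hD (ta_mem_Hom hD (te_mem _ p.2)), te_eq_self hD (ta_mem_Hom hD (te_mem _ p.2)),
      tb_ta_add hD (te_mem_Hom p.2)]

end Pool.Agent.Lib_helper33.Berg
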